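import Mathlib

/-!
Basic tools: finite conditions, predense families, generic functions, closing off.
-/

set_option autoImplicit false

namespace Pool.Agent.Lib.MP_44eb6b_gt

open Set Cardinal

/-- The well-order of type `ω₁`. -/
abbrev W : Type := (ℵ_ 1 : Cardinal.{0}).ord.ToType

theorem mk_W : #W = ℵ_ 1 := Cardinal.mk_ord_toType _

theorem Iio_ctb (a : W) : (Set.Iio a).Countable := by
  rw [← Cardinal.le_aleph0_iff_set_countable]
  have h := Cardinal.mk_Iio_lt a (by simp)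
  exact Order.lt_succ_iff.mp ((h.trans_eq mk_W).trans_eq Cardinal.succ_aleph0.symm)

theorem Iic_ctb (a : W) : (Set.Iic a).Countable := by
  have : Set.Iic a = insert a (Set.Iio a) := by
    ext y; simp [le_iff_eq_or_lt]
  rw [this]
  exact (Iio_ctb a).insert _

theorem unctb : ¬ (Set.univ : Set W).Countable := by
  rw [← Cardinal.le_aleph0_iff_set_countable, Cardinal.mk_univ, mk_W]
  exact not_le.mpr Cardinal.aleph0_lt_aleph_one

theorem bdd_ctb (s : Set W) (hs : s.Countable) : ∃ a, ∀ x ∈ s, x < a := by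
  by_contra hcon
  push Not at hcon
  apply unctb
  have h1 : (Set.univ : Set W) ⊆ ⋃ x ∈ s, Set.Iic x := by
    intro a _
    obtain ⟨x, hx, hax⟩ := hcon a
    exact Set.mem_biUnion hx hax
  exact (Set.Countable.biUnion hs fun x _ => Iic_ctb x).mono h1

theorem bdd_ctb' (s : Set W) (hs : s.Countable) (b : W) : ∃ a, b < a ∧ ∀ x ∈ s, x < a := by
  obtain ⟨a, ha⟩ := bdd_ctb (insert b s) (hs.insert b)
  exact ⟨a, ha b (Set.mem_insert _ _), fun x hx => ha x (Set.mem_insert_of_mem _ hx)⟩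

noncomputable instance : Inhabited W := ⟨(bdd_ctb ∅ Set.countable_empty).choose⟩

/-- Countably many indices: a common strict bound. -/
theorem bdd_fun {ι : Type} (s : Set ι) (hs : s.Countable) (f : ι → W) :
    ∃ a, ∀ x ∈ s, f x < a := by
  obtain ⟨a, ha⟩ := bdd_ctb (f '' s) (hs.image f)
  exact ⟨a, fun x hx => ha _ (Set.mem_image_of_mem f hx)⟩

/-! ### Finite conditions -/

/-- A finite condition on functions `S → Bool`. -/
abbrev Cnd (S : Type) := Finset S × Finset S

/-- The function `f` matches the condition `c`. -/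
def Mt {S : Type} (c : Cnd S) (f : S → Bool) : Prop :=
  (∀ x ∈ c.1, f x = true) ∧ (∀ x ∈ c.2, f x = false)

/-- A predense family. -/
def Pre {S : Type} (D : Set (Cnd S)) : Prop :=
  ∀ c : Cnd S, (∃ f, Mt c f) → ∃ d ∈ D, ∃ f, Mt c f ∧ Mt d f

theorem Mt.mono {S : Type} {c d : Cnd S} {f : S → Bool} (h : Mt d f) (h1 : c.1 ⊆ d.1)
    (h2 : c.2 ⊆ d.2) : Mt c f :=
  ⟨fun x hx => h.1 x (h1 hx), fun x hx => h.2 x (h2 hx)⟩

/-- A generic function below a condition. -/
theorem generic {S : Type} (C : Set (Set (Cnd S))) (hC : C.Countable) (hD : ∀ D ∈ C, Pre D)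
    (c0 : Cnd S) (h0 : ∃ f, Mt c0 f) :
    ∃ f : S → Bool, Mt c0 f ∧ ∀ D ∈ C, ∃ d ∈ D, Mt d f := by
  classical
  rcases C.eq_empty_or_nonempty with rfl | hne
  · obtain ⟨f, hf⟩ := h0
    exact ⟨f, hf, by simp⟩
  obtain ⟨e, he⟩ := hC.exists_eq_range hne
  have hstep : ∀ (n : ℕ) (c : {c : Cnd S // ∃ f, Mt c f}),
      ∃ c' : {c : Cnd S // ∃ f, Mt c f}, c.1.1 ⊆ c'.1.1 ∧ c.1.2 ⊆ c'.1.2 ∧
        ∃ d ∈ e n, d.1 ⊆ c'.1.1 ∧ d.2 ⊆ c'.1.2 := by
    intro n c
    have hp : Pre (e n) := hD _ (he ▸ Set.mem_range_self n)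
    obtain ⟨d, hd, f, hf1, hf2⟩ := hp c.1 c.2
    refine ⟨⟨(c.1.1 ∪ d.1, c.1.2 ∪ d.2), f, ?_, ?_⟩, Finset.subset_union_left,
      Finset.subset_union_left, d, hd, Finset.subset_union_right, Finset.subset_union_right⟩
    · intro x hx
      rcases Finset.mem_union.mp hx with h | h
      · exact hf1.1 x h
      · exact hf2.1 x h
    · intro x hx
      rcases Finset.mem_union.mp hx with h | h
      · exact hf1.2 x h
      · exact hf2.2 x h
  choose nx hn1 hn2 hn3 using hstep
  let s : ℕ → {c : Cnd S // ∃ f, Mt c f} := fun n => Nat.rec ⟨c0, h0⟩ (fun n c => nx n c) n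
  have hs0 : s 0 = ⟨c0, h0⟩ := rfl
  have hs1 : ∀ n, s (n + 1) = nx n (s n) := fun n => rfl
  have hm1 : Monotone fun n => (s n).1.1 := by
    apply monotone_nat_of_le_succ
    intro n
    rw [hs1]
    exact hn1 n (s n)
  have hm2 : Monotone fun n => (s n).1.2 := by
    apply monotone_nat_of_le_succ
    intro n
    rw [hs1]
    exact hn2 n (s n)
  let f : S → Bool := fun x => decide (∃ n, x ∈ (s n).1.1)
  have hf : ∀ n, Mt (s n).1 f := by
    intro n
    refine ⟨fun x hx => ?_, fun x hx => ?_⟩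
    · exact decide_eq_true ⟨n, hx⟩
    · apply decide_eq_false
      rintro ⟨m, hm⟩
      obtain ⟨g, hg⟩ := (s (max n m)).2
      have h1 := hg.1 x (hm1 (le_max_right n m) hm)
      have h2 := hg.2 x (hm2 (le_max_left n m) hx)
      rw [h1] at h2
      exact Bool.noConfusion h2
  refine ⟨f, by simpa [hs0] using hf 0, ?_⟩
  intro D hDC
  rw [he] at hDC
  obtain ⟨n, rfl⟩ := hDC
  obtain ⟨d, hd, h1, h2⟩ := hn3 n (s n)
  refine ⟨d, hd, (hf (n + 1)).mono ?_ ?_⟩
  · rw [hs1]; exact h1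
  · rw [hs1]; exact h2

/-! ### Well-founded recursion with choice -/

theorem exists_rec {B : Type} [Inhabited B] (Req : W → (W → B) → B → Prop)
    (hcongr : ∀ α p q f, (∀ β, β < α → p β = q β) → Req α p f → Req α q f)
    (hex : ∀ α p, ∃ f, Req α p f) : ∃ r : W → B, ∀ α, Req α r (r α) := by
  classical
  choose g hg using hex
  let F : (α : W) → ((β : W) → β < α → B) → B := fun α rec =>
    g α (fun β => if h : β < α then rec β h else default)
  let r : W → B := (wellFounded_lt (α := W)).fix F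
  refine ⟨r, fun α => ?_⟩
  have h1 : r α = F α (fun β _ => r β) := (wellFounded_lt (α := W)).fix_eq F α
  have h2 := hg α (fun β => if h : β < α then r β else default)
  rw [h1]
  refine hcongr α _ r _ ?_ h2
  intro β hβ
  simp [hβ]

/-! ### Ranked types and closing off -/

/-- `Bel x δ` says that all ordinals mentioned in `x` are below `δ`. -/
structure Rk {H : Type} (Bel : H → W → Prop) : Prop where
  mono : ∀ x δ δ', δ ≤ δ' → Bel x δ → Bel x δ'
  cnt : ∀ δ, {x | Bel x δ}.Countable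
  cont : ∀ (d : ℕ → W), Monotone d → ∀ δ, IsLUB (Set.range d) δ → ∀ x, Bel x δ →
    ∃ i, Bel x (d i)
  ex : ∀ x, ∃ δ, Bel x δ

theorem exists_lub (s : Set W) (hs : s.Countable) : ∃ δ, IsLUB s δ := by
  obtain ⟨a, ha⟩ := bdd_ctb s hs
  have hne : (upperBounds s).Nonempty := ⟨a, fun x hx => (ha x hx).le⟩
  refine ⟨(wellFounded_lt (α := W)).min (upperBounds s) hne,
    (wellFounded_lt (α := W)).min_mem _ hne, ?_⟩
  intro b hb
  exact not_lt.mp ((wellFounded_lt (α := W)).not_lt_min (upperBounds s) hb)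

/-- The closing off lemma. -/
theorem close_off {H : Type} {Bel : H → W → Prop} (hR : Rk Bel) (h : H → W) (δ0 : W) :
    ∃ δ, δ0 ≤ δ ∧ ∀ x, Bel x δ → h x ≤ δ := by
  have hstep : ∀ δ : W, ∃ δ', δ ≤ δ' ∧ ∀ x, Bel x δ → h x ≤ δ' := by
    intro δ
    obtain ⟨a, ha1, ha2⟩ := bdd_ctb' (h '' {x | Bel x δ}) ((hR.cnt δ).image h) δ
    exact ⟨a, ha1.le, fun x hx => (ha2 _ (Set.mem_image_of_mem h hx)).le⟩
  choose nx hn1 hn2 using hstep
  let d : ℕ → W := fun n => Nat.rec δ0 (fun _ x => nx x) n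
  have hd1 : ∀ n, d (n + 1) = nx (d n) := fun n => rfl
  have hm : Monotone d := by
    apply monotone_nat_of_le_succ
    intro n
    rw [hd1]
    exact hn1 _
  obtain ⟨δ, hδ⟩ := exists_lub (Set.range d) (Set.countable_range d)
  refine ⟨δ, hδ.1 ⟨0, rfl⟩, ?_⟩
  intro x hx
  obtain ⟨i, hi⟩ := hR.cont d hm δ hδ x hx
  exact (hn2 _ x hi).trans (hδ.1 ⟨i + 1, rfl⟩)

/-- The coordinates. -/
abbrev K : Type := ℕ ⊕ W

/-- The coordinate is below `δ`. -/
def bel (k : K) (δ : W) : Prop :=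
  match k with
  | Sum.inl _ => True
  | Sum.inr ξ => ξ < δ

theorem rk_bel : Rk bel where
  mono := by
    rintro (n | ξ) δ δ' h h1
    · trivial
    · exact lt_of_lt_of_le h1 h
  cnt := by
    intro δ
    have : {x : K | bel x δ} ⊆ Set.range Sum.inl ∪ Sum.inr '' Set.Iio δ := by
      rintro (n | ξ) h
      · left; exact ⟨n, rfl⟩
      · right; exact ⟨ξ, h, rfl⟩
    exact ((Set.countable_range _).union ((Iio_ctb δ).image _)).mono this
  cont := by
    rintro d hd δ hδ (n | ξ) h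
    · exact ⟨0, trivial⟩
    · by_contra hcon
      push Not at hcon
      have : δ ≤ ξ := hδ.2 (by
        rintro _ ⟨i, rfl⟩
        exact not_lt.mp (hcon i))
      exact absurd h (not_lt.mpr this)
  ex := by
    rintro (n | ξ)
    · exact ⟨default, trivial⟩
    · obtain ⟨a, ha, _⟩ := bdd_ctb' ∅ Set.countable_empty ξ
      exact ⟨a, ha⟩

theorem Rk.prod {H G : Type} {B : H → W → Prop} {C : G → W → Prop} (hB : Rk B) (hC : Rk C) :
    Rk (fun (x : H × G) δ => B x.1 δ ∧ C x.2 δ) where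
  mono := fun x δ δ' h h1 => ⟨hB.mono _ _ _ h h1.1, hC.mono _ _ _ h h1.2⟩
  cnt := by
    intro δ
    have h1 := (hB.cnt δ).prod (hC.cnt δ)
    refine h1.mono ?_
    intro x hx
    exact ⟨hx.1, hx.2⟩
  cont := by
    intro d hd δ hδ x hx
    obtain ⟨i, hi⟩ := hB.cont d hd δ hδ _ hx.1
    obtain ⟨j, hj⟩ := hC.cont d hd δ hδ _ hx.2
    exact ⟨max i j, hB.mono _ _ _ (hd (le_max_left i j)) hi,
      hC.mono _ _ _ (hd (le_max_right i j)) hj⟩
  ex := by
    intro x
    obtain ⟨a, ha⟩ := hB.ex x.1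
    obtain ⟨b, hb⟩ := hC.ex x.2
    exact ⟨max a b, hB.mono _ _ _ (le_max_left a b) ha, hC.mono _ _ _ (le_max_right a b) hb⟩

theorem Rk.triv {H : Type} [Countable H] : Rk (fun (_ : H) (_ : W) => True) where
  mono := fun _ _ _ _ _ => trivial
  cnt := fun _ => Set.to_countable _
  cont := fun _ _ _ _ _ _ => ⟨0, trivial⟩
  ex := fun _ => ⟨default, trivial⟩

theorem Rk.list {H : Type} {B : H → W → Prop} (hB : Rk B) :
    Rk (fun (l : List H) δ => ∀ x ∈ l, B x δ) where
  mono := fun l δ δ' h h1 x hx => hB.mono _ _ _ h (h1 x hx)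
  cnt := by
    intro δ
    have : Countable {x | B x δ} := (hB.cnt δ).to_subtype
    have h2 : {l : List H | ∀ x ∈ l, B x δ} ⊆
        Set.range (fun l : List {x | B x δ} => l.map Subtype.val) := by
      intro l hl
      refine ⟨l.attach.map (fun x => ⟨x.1, hl x.1 x.2⟩), ?_⟩
      simp [List.map_map, Function.comp_def]
    exact (Set.countable_range _).mono h2
  cont := by
    intro d hd δ hδ l hl
    induction l with
    | nil => exact ⟨0, by simp⟩
    | cons a l ih =>
      obtain ⟨i, hi⟩ := ih (fun x hx => hl x (List.mem_cons_of_mem _ hx))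
      obtain ⟨j, hj⟩ := hB.cont d hd δ hδ a (hl a List.mem_cons_self)
      refine ⟨max i j, ?_⟩
      intro x hx
      rcases List.mem_cons.mp hx with rfl | hx
      · exact hB.mono _ _ _ (hd (le_max_right i j)) hj
      · exact hB.mono _ _ _ (hd (le_max_left i j)) (hi x hx)
  ex := by
    intro l
    induction l with
    | nil => exact ⟨default, by simp⟩
    | cons a l ih =>
      obtain ⟨i, hi⟩ := ih
      obtain ⟨j, hj⟩ := hB.ex a
      refine ⟨max i j, ?_⟩
      intro x hx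
      rcases List.mem_cons.mp hx with rfl | hx
      · exact hB.mono _ _ _ (le_max_right i j) hj
      · exact hB.mono _ _ _ (le_max_left i j) (hi x hx)

theorem Rk.finset {H : Type} {B : H → W → Prop} (hB : Rk B) :
    Rk (fun (l : Finset H) δ => ∀ x ∈ l, B x δ) where
  mono := fun l δ δ' h h1 x hx => hB.mono _ _ _ h (h1 x hx)
  cnt := by
    classical
    intro δ
    have h2 : {l : Finset H | ∀ x ∈ l, B x δ} ⊆
        (fun l : List H => l.toFinset) '' {l : List H | ∀ x ∈ l, B x δ} := by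
      intro l hl
      refine ⟨l.toList, ?_, by simp⟩
      intro x hx
      exact hl x (by simpa using hx)
    exact ((hB.list.cnt δ).image _).mono h2
  cont := by
    intro d hd δ hδ l hl
    obtain ⟨i, hi⟩ := hB.list.cont d hd δ hδ l.toList (fun x hx => hl x (by simpa using hx))
    exact ⟨i, fun x hx => hi x (by simpa using hx)⟩
  ex := by
    intro l
    obtain ⟨i, hi⟩ := hB.list.ex l.toList
    exact ⟨i, fun x hx => hi x (by simpa using hx)⟩

/-- Conditions on `ℕ × K` below `δ`. -/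
def cbel (c : Cnd (ℕ × K)) (δ : W) : Prop :=
  (∀ q ∈ c.1, True ∧ bel q.2 δ) ∧ (∀ q ∈ c.2, True ∧ bel q.2 δ)

theorem rk_cbel : Rk cbel :=
  Rk.prod (Rk.finset (Rk.prod Rk.triv rk_bel)) (Rk.finset (Rk.prod Rk.triv rk_bel))

/-- Every predense family has a countable predense subfamily. -/
theorem pre_countable (D : Set (Cnd (ℕ × K))) (hD : Pre D) :
    ∃ D' ⊆ D, D'.Countable ∧ Pre D' := by
  classical
  have hD' : ∀ c : Cnd (ℕ × K), ∃ d, (∃ f, Mt c f) → d ∈ D ∧ ∃ f, Mt c f ∧ Mt d f := by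
    intro c
    by_cases hc : ∃ f, Mt c f
    · obtain ⟨d, hd, h⟩ := hD c hc
      exact ⟨d, fun _ => ⟨hd, h⟩⟩
    · exact ⟨(∅, ∅), fun h => absurd h hc⟩
  choose g hg using hD'
  choose b hb using fun c => rk_cbel.ex (g c)
  obtain ⟨δ, _, hδ⟩ := close_off rk_cbel b default
  refine ⟨{d | ∃ c, cbel c δ ∧ (∃ f, Mt c f) ∧ g c = d}, ?_, ?_, ?_⟩
  · rintro d ⟨c, _, h2, rfl⟩
    exact (hg c h2).1
  · have : {d | ∃ c, cbel c δ ∧ (∃ f, Mt c f) ∧ g c = d} ⊆ g '' {c | cbel c δ} := by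
      rintro d ⟨c, h1, _, rfl⟩
      exact ⟨c, h1, rfl⟩
    exact ((rk_cbel.cnt δ).image g).mono this
  · intro c hc
    let c' : Cnd (ℕ × K) := (c.1.filter (fun q => bel q.2 δ), c.2.filter (fun q => bel q.2 δ))
    have hc' : ∃ f, Mt c' f := by
      obtain ⟨f, hf⟩ := hc
      exact ⟨f, hf.mono (Finset.filter_subset _ _) (Finset.filter_subset _ _)⟩
    have hb' : cbel c' δ := by
      refine ⟨fun q hq => ⟨trivial, ?_⟩, fun q hq => ⟨trivial, ?_⟩⟩
      · exact (Finset.mem_filter.mp hq).2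
      · exact (Finset.mem_filter.mp hq).2
    refine ⟨g c', ⟨c', hb', hc', rfl⟩, ?_⟩
    obtain ⟨_, f, hf1, hf2⟩ := hg c' hc'
    obtain ⟨f0, hf0⟩ := hc
    have hgb : cbel (g c') δ := rk_cbel.mono _ _ _ (hδ c' hb') (hb c')
    refine ⟨fun q => if bel q.2 δ then f q else f0 q, ⟨?_, ?_⟩, ⟨?_, ?_⟩⟩
    · intro q hq
      by_cases h : bel q.2 δ
      · simp only [h, if_true]
        exact hf1.1 q (Finset.mem_filter.mpr ⟨hq, h⟩)
      · simp only [h, if_false]
        exact hf0.1 q hq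
    · intro q hq
      by_cases h : bel q.2 δ
      · simp only [h, if_true]
        exact hf1.2 q (Finset.mem_filter.mpr ⟨hq, h⟩)
      · simp only [h, if_false]
        exact hf0.2 q hq
    · intro q hq
      simp only [(hgb.1 q hq).2, if_true]
      exact hf2.1 q hq
    · intro q hq
      simp only [(hgb.2 q hq).2, if_true]
      exact hf2.2 q hq

end Pool.Agent.Lib.MP_44eb6b_gt
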