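import Pool.Agent.Lib.MP_44eb6b_gt.Data

/-!
Closed sets of countable powers: countable dense subsets.
-/

set_option autoImplicit false

namespace Pool.Agent.Lib.MP_44eb6b_gt

open Set Cardinal

/-- Finite codes: old points are given by `Sum.inl`, new ones by `Sum.inr`. -/
abbrev Cd : Type := List ((W ⊕ ℕ) × ℕ)

/-- The point coded by `u` when the new points are `w`. -/
def val (w : ℕ → W) (u : (W ⊕ ℕ) × ℕ) : W × ℕ := (Sum.elim id w u.1, u.2)

/-- The combined matrix of the rows `w`. -/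
def zz (M : Dat) (w : ℕ → W) : ℕ × K → Bool := fun q => M.z (w q.1) q.2

/-- Basic neighbourhoods in the countable power. -/
def Near (M : Dat) (k : ℕ) (a : Finset K) (x y : ℕ → W × ℕ) : Prop :=
  ∀ i < k, (y i).2 = (x i).2 ∧ ∀ κ ∈ a, M.z (y i).1 κ = M.z (x i).1 κ

/-- `t` and `w` represent an initial segment of `x` over `δ`. -/
structure Rep (δ : W) (x : ℕ → W × ℕ) (t : Cd) (w : ℕ → W) : Prop where
  inj : Set.InjOn w (Set.Iio t.length)
  ge : ∀ j < t.length, δ ≤ w j
  eq : ∀ i u, t[i]? = some u → x i = val w u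

theorem Rep.mono {δ δ' : W} {x : ℕ → W × ℕ} {t : Cd} {w : ℕ → W} (h : Rep δ x t w)
    (hδ : δ' ≤ δ) : Rep δ' x t w :=
  ⟨h.inj, fun j hj => hδ.trans (h.ge j hj), h.eq⟩

/-- Validity of codes. -/
def Val (t : Cd) : Prop := ∀ u ∈ t, ∀ j, u.1 = Sum.inr j → j < t.length

theorem val_congr {w w' : ℕ → W} {u : (W ⊕ ℕ) × ℕ} (h : ∀ j, u.1 = Sum.inr j → w j = w' j) :
    val w u = val w' u := by
  rcases u with ⟨α | j, m⟩
  · rfl
  · simp [val, h j rfl]

theorem rep_step {δ : W} {x : ℕ → W × ℕ} {t : Cd} {w : ℕ → W} (h : Rep δ x t w) (hv : Val t) :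
    ∃ u w', Rep δ x (t ++ [u]) w' ∧ Val (t ++ [u]) ∧ (∀ j < t.length, w' j = w j) ∧
      (∀ α, u.1 = Sum.inl α → α < δ) := by
  classical
  obtain ⟨β, hβ1, hβ2⟩ := bdd_ctb' (w '' Set.Iio t.length) ((Set.to_countable _).image _) δ
  have hβ3 : ∀ j < t.length, w j ≠ β := fun j hj => (hβ2 _ ⟨j, hj, rfl⟩).ne
  have key : ∀ (u : (W ⊕ ℕ) × ℕ) (γ : W), δ ≤ γ → (∀ j < t.length, w j ≠ γ) →
      (∀ j, u.1 = Sum.inr j → j < t.length + 1) →
      x t.length = val (Function.update w t.length γ) u →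
      Rep δ x (t ++ [u]) (Function.update w t.length γ) ∧ Val (t ++ [u]) := by
    intro u γ hγ1 hγ2 hu1 hu2
    refine ⟨⟨?_, ?_, ?_⟩, ?_⟩
    · intro i hi j hj hij
      simp only [List.length_append, List.length_singleton, Set.mem_Iio] at hi hj
      by_cases hi' : i = t.length
      · by_cases hj' : j = t.length
        · rw [hi', hj']
        · rw [hi', Function.update_self, Function.update_of_ne hj'] at hij
          exact absurd hij.symm (hγ2 j (by omega))
      · by_cases hj' : j = t.length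
        · rw [hj', Function.update_self, Function.update_of_ne hi'] at hij
          exact absurd hij (hγ2 i (by omega))
        · rw [Function.update_of_ne hi', Function.update_of_ne hj'] at hij
          exact h.inj (show i < t.length by omega) (show j < t.length by omega) hij
    · intro j hj
      simp only [List.length_append, List.length_singleton] at hj
      by_cases hj' : j = t.length
      · rw [hj', Function.update_self]; exact hγ1
      · rw [Function.update_of_ne hj']; exact h.ge j (by omega)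
    · intro i u' hu'
      rcases lt_trichotomy i t.length with hi | hi | hi
      · rw [List.getElem?_append_left hi] at hu'
        rw [h.eq i u' hu']
        apply val_congr
        intro j hj
        have := hv u' (List.mem_of_getElem? hu') j hj
        rw [Function.update_of_ne (by omega)]
      · subst hi
        rw [List.getElem?_concat_length] at hu'
        obtain rfl := Option.some.inj hu'
        exact hu2
      · rw [List.getElem?_eq_none (by simp; omega)] at hu'
        exact absurd hu' (by simp)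
    · intro u' hu' j hj
      simp only [List.length_append, List.length_singleton]
      rcases List.mem_append.mp hu' with h1 | h1
      · have := hv u' h1 j hj
        omega
      · rw [List.mem_singleton] at h1
        subst h1
        exact hu1 j hj
  by_cases h1 : (x t.length).1 < δ
  · obtain ⟨h2, h3⟩ := key (Sum.inl (x t.length).1, (x t.length).2) β hβ1.le hβ3
      (fun j hj => by simp at hj) rfl
    refine ⟨_, _, h2, h3, fun j hj => Function.update_of_ne (by omega) _ _, ?_⟩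
    intro α hα
    simp only [Sum.inl.injEq] at hα
    rw [← hα]; exact h1
  · rw [not_lt] at h1
    by_cases h4 : ∃ j < t.length, w j = (x t.length).1
    · obtain ⟨j, hj, hj'⟩ := h4
      obtain ⟨h2, h3⟩ := key (Sum.inr j, (x t.length).2) β hβ1.le hβ3
        (fun j' hj' => by simp only [Sum.inr.injEq] at hj'; omega)
        (by simp only [val, Sum.elim_inr]; rw [Function.update_of_ne (by omega), hj'])
      exact ⟨_, _, h2, h3, fun j hj => Function.update_of_ne (by omega) _ _,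
        fun α hα => by simp at hα⟩
    · push Not at h4
      obtain ⟨h2, h3⟩ := key (Sum.inr t.length, (x t.length).2) (x t.length).1 h1 h4
        (fun j' hj' => by simp only [Sum.inr.injEq] at hj'; omega)
        (by simp [val])
      exact ⟨_, _, h2, h3, fun j hj => Function.update_of_ne (by omega) _ _,
        fun α hα => by simp at hα⟩

/-- Ordinals of codes. -/
def belu (u : (W ⊕ ℕ) × ℕ) (δ : W) : Prop := ∀ α, u.1 = Sum.inl α → α < δ

theorem rk_belu : Rk belu where
  mono := fun x δ δ' h h1 α hα => lt_of_lt_of_le (h1 α hα) h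
  cnt := by
    intro δ
    have : {x : (W ⊕ ℕ) × ℕ | belu x δ} ⊆
        (Sum.inl '' Set.Iio δ ∪ Set.range Sum.inr) ×ˢ Set.univ := by
      rintro ⟨α | j, m⟩ h
      · exact ⟨Or.inl ⟨α, h α rfl, rfl⟩, trivial⟩
      · exact ⟨Or.inr ⟨j, rfl⟩, trivial⟩
    exact ((((Iio_ctb δ).image _).union (Set.countable_range _)).prod
      (Set.to_countable _)).mono this
  cont := by
    rintro d hd δ hδ ⟨α | j, m⟩ h
    · obtain ⟨i, hi⟩ := rk_lt.cont d hd δ hδ α (h α rfl)
      refine ⟨i, ?_⟩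
      intro α' hα'
      simp only [Sum.inl.injEq] at hα'
      rw [← hα']; exact hi
    · exact ⟨0, fun α hα => by simp at hα⟩
  ex := by
    rintro ⟨α | j, m⟩
    · obtain ⟨a, ha, _⟩ := bdd_ctb' ∅ Set.countable_empty α
      refine ⟨a, ?_⟩
      intro α' hα'
      simp only [Sum.inl.injEq] at hα'
      rw [← hα']; exact ha
    · exact ⟨default, fun α hα => by simp at hα⟩

section
variable (M : Dat) (F : Set (ℕ → W × ℕ))

/-- The condition has witnesses with arbitrarily large new points. -/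
def Big (t : Cd) (c : Cnd (ℕ × K)) : Prop :=
  ∀ δ, ∃ x ∈ F, ∃ w, Rep δ x t w ∧ Mt c (zz M w)

/-- The condition only mentions the first rows. -/
def Bd (t : Cd) (c : Cnd (ℕ × K)) : Prop :=
  (∀ q ∈ c.1, q.1 < t.length) ∧ (∀ q ∈ c.2, q.1 < t.length)

/-- All further conditions are big. -/
def Solid (t : Cd) (c : Cnd (ℕ × K)) : Prop :=
  Val t ∧ Bd t c ∧ (∃ f, Mt c f) ∧ ∀ c' : Cnd (ℕ × K), c.1 ⊆ c'.1 → c.2 ⊆ c'.2 → Bd t c' →
    (∃ f, Mt c' f) → Big M F t c'

/-- The part of a condition in the first `n` rows. -/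
noncomputable def cut (n : ℕ) (c : Cnd (ℕ × K)) : Cnd (ℕ × K) :=
  (c.1.filter (fun q => q.1 < n), c.2.filter (fun q => q.1 < n))

/-- Single conditions incompatible with `c`. -/
def Sing (c : Cnd (ℕ × K)) : Set (Cnd (ℕ × K)) :=
  {d | (∃ q ∈ c.1, d = (∅, {q})) ∨ (∃ q ∈ c.2, d = ({q}, ∅))}

theorem Sing_not {c : Cnd (ℕ × K)} {d : Cnd (ℕ × K)} (hd : d ∈ Sing c) {f : ℕ × K → Bool}
    (h1 : Mt c f) (h2 : Mt d f) : False := by
  rcases hd with ⟨q, hq, rfl⟩ | ⟨q, hq, rfl⟩
  · have a := h1.1 q hq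
    have b := h2.2 q (by simp)
    rw [a] at b; exact Bool.noConfusion b
  · have a := h1.2 q hq
    have b := h2.1 q (by simp)
    rw [a] at b; exact Bool.noConfusion b

/-- A tool to prove that families are predense. -/
theorem pre_tool {t : Cd} {c : Cnd (ℕ × K)} (hb : Bd t c) (hc : ∃ f, Mt c f)
    (D : Set (Cnd (ℕ × K)))
    (hD : ∀ c' : Cnd (ℕ × K), c.1 ⊆ c'.1 → c.2 ⊆ c'.2 → Bd t c' → (∃ f, Mt c' f) →
      ∃ d ∈ D, Bd t d ∧ ∃ g, Mt c' g ∧ Mt d g) : Pre (D ∪ Sing c) := by
  classical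
  rintro e ⟨f, hf⟩
  by_cases h1 : ∃ q ∈ c.1, q ∈ e.2
  · obtain ⟨q, hq1, hq2⟩ := h1
    refine ⟨(∅, {q}), Or.inr (Or.inl ⟨q, hq1, rfl⟩), f, hf, by simp, ?_⟩
    intro x hx
    rw [Finset.mem_singleton] at hx
    rw [hx]; exact hf.2 q hq2
  by_cases h2 : ∃ q ∈ c.2, q ∈ e.1
  · obtain ⟨q, hq1, hq2⟩ := h2
    refine ⟨({q}, ∅), Or.inr (Or.inr ⟨q, hq1, rfl⟩), f, hf, ?_, by simp⟩
    intro x hx
    rw [Finset.mem_singleton] at hx
    rw [hx]; exact hf.1 q hq2
  push Not at h1 h2
  obtain ⟨f0, hf0⟩ := hc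
  let c' : Cnd (ℕ × K) := (c.1 ∪ (cut t.length e).1, c.2 ∪ (cut t.length e).2)
  have hb' : Bd t c' := by
    refine ⟨fun q hq => ?_, fun q hq => ?_⟩
    · rcases Finset.mem_union.mp hq with h | h
      · exact hb.1 q h
      · exact (Finset.mem_filter.mp h).2
    · rcases Finset.mem_union.mp hq with h | h
      · exact hb.2 q h
      · exact (Finset.mem_filter.mp h).2
  have hc' : ∃ f, Mt c' f := by
    refine ⟨fun q => if q ∈ c.1 then true else if q ∈ c.2 then false else f q, ?_, ?_⟩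
    · intro q hq
      by_cases h3 : q ∈ c.1
      · simp [h3]
      · rcases Finset.mem_union.mp hq with h | h
        · exact absurd h h3
        · have h4 := (Finset.mem_filter.mp h).1
          have h5 : q ∉ c.2 := fun h' => h2 q h' h4
          simp only [h3, h5, if_false]
          exact hf.1 q h4
    · intro q hq
      rcases Finset.mem_union.mp hq with h | h
      · have h3 : q ∉ c.1 := by
          intro h'
          have a := hf0.1 q h'
          have b := hf0.2 q h
          rw [a] at b; exact Bool.noConfusion b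
        simp [h3, h]
      · have h4 := (Finset.mem_filter.mp h).1
        have h5 : q ∉ c.1 := fun h' => h1 q h' h4
        by_cases h6 : q ∈ c.2
        · simp [h5, h6]
        · simp only [h5, h6, if_false]
          exact hf.2 q h4
  obtain ⟨d, hd, hbd, g, hg1, hg2⟩ := hD c' Finset.subset_union_left Finset.subset_union_left
    hb' hc'
  refine ⟨d, Or.inl hd, fun q => if q.1 < t.length then g q else f q, ⟨?_, ?_⟩, ⟨?_, ?_⟩⟩
  · intro q hq
    by_cases h : q.1 < t.length
    · simp only [h, if_true]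
      exact hg1.1 q (Finset.mem_union_right _ (Finset.mem_filter.mpr ⟨hq, h⟩))
    · simp only [h, if_false]
      exact hf.1 q hq
  · intro q hq
    by_cases h : q.1 < t.length
    · simp only [h, if_true]
      exact hg1.2 q (Finset.mem_union_right _ (Finset.mem_filter.mpr ⟨hq, h⟩))
    · simp only [h, if_false]
      exact hf.2 q hq
  · intro q hq
    simp only [hbd.1 q hq, if_true]
    exact hg2.1 q hq
  · intro q hq
    simp only [hbd.2 q hq, if_true]
    exact hg2.2 q hq

theorem bd_sing {t : Cd} {c : Cnd (ℕ × K)} (hb : Bd t c) {d : Cnd (ℕ × K)} (hd : d ∈ Sing c) :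
    Bd t d := by
  rcases hd with ⟨q, hq, rfl⟩ | ⟨q, hq, rfl⟩
  · refine ⟨by simp, ?_⟩
    intro x hx
    rw [Finset.mem_singleton] at hx
    rw [hx]; exact hb.1 q hq
  · refine ⟨?_, by simp⟩
    intro x hx
    rw [Finset.mem_singleton] at hx
    rw [hx]; exact hb.2 q hq

/-- Every big condition has a solid extension. -/
theorem exists_solid {t : Cd} {c : Cnd (ℕ × K)} (hv : Val t) (hb : Bd t c)
    (hB : Big M F t c) : ∃ c' : Cnd (ℕ × K), c.1 ⊆ c'.1 ∧ c.2 ⊆ c'.2 ∧ Solid M F t c' := by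
  classical
  by_contra hcon
  push Not at hcon
  have hok : ∃ f, Mt c f := by
    obtain ⟨x, _, w, _, h⟩ := hB default
    exact ⟨_, h⟩
  let N : Set (Cnd (ℕ × K)) := {d | Bd t d ∧ ¬ Big M F t d}
  have hpre : Pre (N ∪ Sing c) := by
    apply pre_tool hb hok
    intro c' h1 h2 h3 h4
    have h5 := hcon c' h1 h2
    have h6 : ∃ c'' : Cnd (ℕ × K), c'.1 ⊆ c''.1 ∧ c'.2 ⊆ c''.2 ∧ Bd t c'' ∧ (∃ f, Mt c'' f) ∧
        ¬ Big M F t c'' := by
      by_contra h7
      push Not at h7
      exact h5 ⟨hv, h3, h4, fun c'' a1 a2 a3 a4 => h7 c'' a1 a2 a3 a4⟩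
    obtain ⟨c'', a1, a2, a3, ⟨g, hg⟩, a5⟩ := h6
    exact ⟨c'', ⟨a3, a5⟩, a3, g, hg.mono a1 a2, hg⟩
  obtain ⟨D', hD'1, hD'2, hD'3⟩ := pre_countable _ hpre
  have hbd : ∀ d ∈ D', Bd t d := by
    intro d hd
    rcases hD'1 hd with h | h
    · exact h.1
    · exact bd_sing hb h
  obtain ⟨ζ, hζ⟩ := M.z1 (Finset.range t.length) D' hD'2
    (fun d hd => ⟨fun q hq => Finset.mem_range.mpr ((hbd d hd).1 q hq),
      fun q hq => Finset.mem_range.mpr ((hbd d hd).2 q hq)⟩) hD'3
  have hnb : ∀ d : Cnd (ℕ × K), ∃ δ : W, ¬ Big M F t d →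
      ∀ x ∈ F, ∀ w, Rep δ x t w → ¬ Mt d (zz M w) := by
    intro d
    by_cases h : Big M F t d
    · exact ⟨default, fun h' => absurd h h'⟩
    · unfold Big at h
      push Not at h
      obtain ⟨δ, hδ⟩ := h
      exact ⟨δ, fun _ => hδ⟩
  choose b hb' using hnb
  obtain ⟨δ, hδ⟩ := bdd_fun D' hD'2 b
  obtain ⟨x, hx, w, hrep, hmt⟩ := hB (max ζ δ)
  obtain ⟨d, hd, hmd⟩ := hζ w (by
    intro i hi j hj hij
    exact hrep.inj (by simpa using hi) (by simpa using hj) hij)
    (fun j hj => (le_max_left _ _).trans (hrep.ge j (Finset.mem_range.mp hj)))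
  rcases hD'1 hd with h | h
  · exact hb' d h.2 x hx w (hrep.mono ((hδ d hd).le.trans (le_max_right _ _))) hmd
  · exact Sing_not h hmt hmd

theorem bd_append {t : Cd} {c : Cnd (ℕ × K)} (u : (W ⊕ ℕ) × ℕ) (h : Bd t c) :
    Bd (t ++ [u]) c := by
  refine ⟨fun q hq => ?_, fun q hq => ?_⟩
  · have := h.1 q hq
    simp; omega
  · have := h.2 q hq
    simp; omega

theorem mt_congr {t : Cd} {c : Cnd (ℕ × K)} (hb : Bd t c) {w w' : ℕ → W}
    (h : ∀ j < t.length, w' j = w j) (hm : Mt c (zz M w)) : Mt c (zz M w') := by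
  refine ⟨fun q hq => ?_, fun q hq => ?_⟩
  · have := hm.1 q hq
    unfold zz at this ⊢
    rw [h _ (hb.1 q hq)]; exact this
  · have := hm.2 q hq
    unfold zz at this ⊢
    rw [h _ (hb.2 q hq)]; exact this

/-- Every big condition has a one step extension. -/
theorem exists_step {t : Cd} {c : Cnd (ℕ × K)} (hv : Val t) (hb : Bd t c)
    (hB : Big M F t c) : ∃ u, Val (t ++ [u]) ∧ Big M F (t ++ [u]) c := by
  classical
  by_contra hcon
  push Not at hcon
  have hnb : ∀ u : (W ⊕ ℕ) × ℕ, ∃ δ : W, Val (t ++ [u]) →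
      ∀ x ∈ F, ∀ w, Rep δ x (t ++ [u]) w → ¬ Mt c (zz M w) := by
    intro u
    by_cases h : Val (t ++ [u])
    · have h' := hcon u h
      unfold Big at h'
      push Not at h'
      obtain ⟨δ, hδ⟩ := h'
      exact ⟨δ, fun _ => hδ⟩
    · exact ⟨default, fun h' => absurd h' h⟩
  choose b hb' using hnb
  obtain ⟨δ, _, hδ⟩ := close_off rk_belu b default
  obtain ⟨x, hx, w, hrep, hmt⟩ := hB δ
  obtain ⟨u, w', h1, h2, h3, h4⟩ := rep_step hrep hv
  exact hb' u h2 x hx w' (h1.mono (hδ u h4)) (mt_congr M hb h3 hmt)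

/-- The countable set of extensions of a solid condition. -/
theorem exists_ext {t : Cd} {c : Cnd (ℕ × K)} (hs : Solid M F t c) :
    ∃ (C : Set (Cd × Cnd (ℕ × K))) (ζ : W), C.Countable ∧
      (∀ b ∈ C, (∃ u, b.1 = t ++ [u]) ∧ Solid M F b.1 b.2) ∧
      (∀ s : ℕ → W, Set.InjOn s (Set.Iio t.length) → (∀ j < t.length, ζ ≤ s j) →
        Mt c (zz M s) → ∃ b ∈ C, Mt (cut t.length b.2) (zz M s)) := by
  classical
  obtain ⟨hv, hb, hok, hB⟩ := hs
  let N : Set (Cnd (ℕ × K)) := {d | ∃ u c', Solid M F (t ++ [u]) c' ∧ d = cut t.length c'}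
  have hcut : ∀ c', Bd t (cut t.length c') := by
    intro c'
    refine ⟨fun q hq => ?_, fun q hq => ?_⟩
    · exact (Finset.mem_filter.mp hq).2
    · exact (Finset.mem_filter.mp hq).2
  have hpre : Pre (N ∪ Sing c) := by
    apply pre_tool hb hok
    intro c' h1 h2 h3 h4
    obtain ⟨u, hu1, hu2⟩ := exists_step M F hv h3 (hB c' h1 h2 h3 h4)
    obtain ⟨c'', a1, a2, a3⟩ := exists_solid M F hu1 (bd_append u h3) hu2
    obtain ⟨g, hg⟩ := a3.2.2.1
    exact ⟨cut t.length c'', ⟨u, c'', a3, rfl⟩, hcut _, g, hg.mono a1 a2,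
      hg.mono (Finset.filter_subset _ _) (Finset.filter_subset _ _)⟩
  obtain ⟨D', hD'1, hD'2, hD'3⟩ := pre_countable _ hpre
  have hbd : ∀ d ∈ D', Bd t d := by
    intro d hd
    rcases hD'1 hd with ⟨u, c', _, rfl⟩ | h
    · exact hcut _
    · exact bd_sing hb h
  obtain ⟨ζ, hζ⟩ := M.z1 (Finset.range t.length) D' hD'2
    (fun d hd => ⟨fun q hq => Finset.mem_range.mpr ((hbd d hd).1 q hq),
      fun q hq => Finset.mem_range.mpr ((hbd d hd).2 q hq)⟩) hD'3
  have hch : ∀ d : Cnd (ℕ × K), ∃ b : Cd × Cnd (ℕ × K), d ∈ N →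
      (∃ u, b.1 = t ++ [u]) ∧ Solid M F b.1 b.2 ∧ d = cut t.length b.2 := by
    intro d
    by_cases h : d ∈ N
    · obtain ⟨u, c', h1, h2⟩ := h
      exact ⟨(t ++ [u], c'), fun _ => ⟨⟨u, rfl⟩, h1, h2⟩⟩
    · exact ⟨([], (∅, ∅)), fun h' => absurd h' h⟩
  choose g hg using hch
  refine ⟨g '' (D' ∩ N), ζ, (hD'2.mono Set.inter_subset_left).image g, ?_, ?_⟩
  · rintro b ⟨d, ⟨_, hd⟩, rfl⟩
    exact ⟨(hg d hd).1, (hg d hd).2.1⟩
  · intro s hs1 hs2 hs3
    obtain ⟨d, hd, hmd⟩ := hζ s (by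
      intro i hi j hj hij
      exact hs1 (by simpa using hi) (by simpa using hj) hij)
      (fun j hj => hs2 j (Finset.mem_range.mp hj))
    rcases hD'1 hd with h | h
    · refine ⟨g d, ⟨d, ⟨hd, h⟩, rfl⟩, ?_⟩
      rw [← (hg d h).2.2]
      exact hmd
    · exact (Sing_not h hs3 hmd).elim

end

theorem countable_closure {H : Type} (C : H → Set H) (hC : ∀ h, (C h).Countable) (h0 : H) :
    ∃ B : Set H, B.Countable ∧ h0 ∈ B ∧ ∀ b ∈ B, C b ⊆ B := by
  let A : ℕ → Set H := fun n => Nat.rec {h0} (fun _ A => A ∪ ⋃ b ∈ A, C b) n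
  have hA1 : ∀ n, A (n + 1) = A n ∪ ⋃ b ∈ A n, C b := fun n => rfl
  have hA : ∀ n, (A n).Countable := by
    intro n
    induction n with
    | zero => exact Set.countable_singleton _
    | succ n ih =>
      rw [hA1]
      exact ih.union (ih.biUnion fun b _ => hC b)
  refine ⟨⋃ n, A n, Set.countable_iUnion hA, Set.mem_iUnion.mpr ⟨0, rfl⟩, ?_⟩
  intro b hb c hc
  obtain ⟨n, hn⟩ := Set.mem_iUnion.mp hb
  refine Set.mem_iUnion.mpr ⟨n + 1, ?_⟩
  rw [hA1]
  exact Or.inr (Set.mem_biUnion hn hc)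

/-- Filling the rows of a condition by `E`-type rows. -/
theorem fill (M : Dat) (c : Cnd (ℕ × K)) (hc : ∃ f, Mt c f) (ζ : W) (n : ℕ) :
    ∃ s : ℕ → W, Set.InjOn s (Set.Iio n) ∧
      ∀ j < n, ζ ≤ s j ∧ ¬ M.T (s j) ∧ Mt (row j c) (M.z (s j)) := by
  classical
  obtain ⟨f, hf⟩ := hc
  induction n with
  | zero => exact ⟨fun _ => default, by intro i hi; simp at hi, by simp⟩
  | succ n ih =>
    obtain ⟨s, hs1, hs2⟩ := ih
    obtain ⟨γ, hγ1, hγ2⟩ := bdd_ctb' (s '' Set.Iio n) ((Set.to_countable _).image _) ζ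
    obtain ⟨β, hβ1, hβ2, hβ3⟩ := M.z3 (row n c) ⟨fun κ => f (n, κ),
      fun κ hκ => hf.1 _ (mem_row1.mp hκ), fun κ hκ => hf.2 _ (mem_row2.mp hκ)⟩ γ
    have hne : ∀ j < n, s j ≠ β := fun j hj => ((hγ2 _ ⟨j, hj, rfl⟩).trans_le hβ1).ne
    refine ⟨Function.update s n β, ?_, ?_⟩
    · intro i hi j hj hij
      simp only [Set.mem_Iio] at hi hj
      by_cases hi' : i = n
      · by_cases hj' : j = n
        · rw [hi', hj']
        · rw [hi', Function.update_self, Function.update_of_ne hj'] at hij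
          exact absurd hij.symm (hne j (by omega))
      · by_cases hj' : j = n
        · rw [hj', Function.update_self, Function.update_of_ne hi'] at hij
          exact absurd hij (hne i (by omega))
        · rw [Function.update_of_ne hi', Function.update_of_ne hj'] at hij
          exact hs1 (show i < n by omega) (show j < n by omega) hij
    · intro j hj
      by_cases hj' : j = n
      · rw [hj', Function.update_self]
        exact ⟨hγ1.le.trans hβ1, hβ2, hβ3⟩
      · rw [Function.update_of_ne hj']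
        exact hs2 j (by omega)

end Pool.Agent.Lib.MP_44eb6b_gt
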