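import Pool.Agent.Lib.MP_44eb6b_gt.Rows

/-!
The generic matrix: its properties.
-/

set_option autoImplicit false

namespace Pool.Agent.Lib.MP_44eb6b_gt

open Set Cardinal

/-- The part of a condition outside the row `j`. -/
noncomputable def restr (j : ℕ) (c : Cnd (ℕ × K)) : Cnd (ℕ × K) := by
  classical
  exact (c.1.filter (fun q => q.1 ≠ j), c.2.filter (fun q => q.1 ≠ j))

theorem mem_restr1 {j : ℕ} {c : Cnd (ℕ × K)} {q : ℕ × K} :
    q ∈ (restr j c).1 ↔ q ∈ c.1 ∧ q.1 ≠ j := by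
  simp [restr]

theorem mem_restr2 {j : ℕ} {c : Cnd (ℕ × K)} {q : ℕ × K} :
    q ∈ (restr j c).2 ↔ q ∈ c.2 ∧ q.1 ≠ j := by
  simp [restr]

/-- The family of the traces outside `j` of the conditions compatible with `c0` at `j`. -/
def Tr (D : Set (Cnd (ℕ × K))) (j : ℕ) (c0 : Cnd K) : Set (Cnd (ℕ × K)) :=
  {d | ∃ c ∈ D, (∃ g, Mt (row j c) g ∧ Mt c0 g) ∧ d = restr j c}

theorem pre_Tr {D : Set (Cnd (ℕ × K))} (hD : Pre D) (j : ℕ) (c0 : Cnd K)
    (h0 : ∃ f, Mt c0 f) : Pre (Tr D j c0) := by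
  classical
  rintro e ⟨h, hh⟩
  obtain ⟨g0, hg0⟩ := h0
  let e' : Cnd (ℕ × K) := ((restr j e).1 ∪ c0.1.image (fun κ => (j, κ)),
    (restr j e).2 ∪ c0.2.image (fun κ => (j, κ)))
  have he' : ∃ f, Mt e' f := by
    refine ⟨fun q => if q.1 = j then g0 q.2 else h q, ?_, ?_⟩
    · intro q hq
      rcases Finset.mem_union.mp hq with hq | hq
      · obtain ⟨hq1, hq2⟩ := mem_restr1.mp hq
        simp only [hq2, if_false]
        exact hh.1 q hq1
      · obtain ⟨κ, hκ, rfl⟩ := Finset.mem_image.mp hq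
        simp only [if_true]
        exact hg0.1 κ hκ
    · intro q hq
      rcases Finset.mem_union.mp hq with hq | hq
      · obtain ⟨hq1, hq2⟩ := mem_restr2.mp hq
        simp only [hq2, if_false]
        exact hh.2 q hq1
      · obtain ⟨κ, hκ, rfl⟩ := Finset.mem_image.mp hq
        simp only [if_true]
        exact hg0.2 κ hκ
  obtain ⟨c, hc, f, hf1, hf2⟩ := hD e' he'
  refine ⟨restr j c, ⟨c, hc, ⟨fun κ => f (j, κ), ⟨?_, ?_⟩, ⟨?_, ?_⟩⟩, rfl⟩,
    fun q => if q.1 = j then h q else f q, ⟨?_, ?_⟩, ⟨?_, ?_⟩⟩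
  · intro κ hκ
    exact hf2.1 _ (mem_row1.mp hκ)
  · intro κ hκ
    exact hf2.2 _ (mem_row2.mp hκ)
  · intro κ hκ
    exact hf1.1 _ (Finset.mem_union_right _ (Finset.mem_image_of_mem _ hκ))
  · intro κ hκ
    exact hf1.2 _ (Finset.mem_union_right _ (Finset.mem_image_of_mem _ hκ))
  · intro q hq
    by_cases hj : q.1 = j
    · simp only [hj, if_true]
      exact hh.1 q hq
    · simp only [hj, if_false]
      exact hf1.1 _ (Finset.mem_union_left _ (mem_restr1.mpr ⟨hq, hj⟩))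
  · intro q hq
    by_cases hj : q.1 = j
    · simp only [hj, if_true]
      exact hh.2 q hq
    · simp only [hj, if_false]
      exact hf1.2 _ (Finset.mem_union_left _ (mem_restr2.mpr ⟨hq, hj⟩))
  · intro q hq
    obtain ⟨hq1, hq2⟩ := mem_restr1.mp hq
    simp only [hq2, if_false]
    exact hf2.1 _ hq1
  · intro q hq
    obtain ⟨hq1, hq2⟩ := mem_restr2.mp hq
    simp only [hq2, if_false]
    exact hf2.2 _ hq1

theorem exists_cbel (D : Set (Cnd (ℕ × K))) (hD : D.Countable) : ∃ δ, ∀ c ∈ D, cbel c δ := by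
  choose b hb using fun c => rk_cbel.ex c
  obtain ⟨δ, hδ⟩ := bdd_fun D hD b
  exact ⟨δ, fun c hc => rk_cbel.mono _ _ _ (hδ c hc).le (hb c)⟩

theorem z1_aux (en : W → Set (Cnd (ℕ × K))) (ty : W → Cnd K × Bool) (r : W → K → Bool)
    (hr : ∀ α, ReqRow en ty α r (r α))
    (hen : ∀ D : Set (Cnd (ℕ × K)), D.Countable → D.Nonempty → ∃ η, en η = D)
    (z : W → K → Bool) (hz : ∀ α κ, bel κ α → z α κ = r α κ) (n : ℕ) :
    ∀ (J : Finset ℕ), J.card = n → ∀ (D : Set (Cnd (ℕ × K))), D.Countable →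
      (∀ c ∈ D, (∀ q ∈ c.1, q.1 ∈ J) ∧ (∀ q ∈ c.2, q.1 ∈ J)) → Pre D →
      ∃ ζ, ∀ s : ℕ → W, Set.InjOn s (J : Set ℕ) → (∀ j ∈ J, ζ ≤ s j) →
        ∃ c ∈ D, Mt c (fun q => z (s q.1) q.2) := by
  classical
  induction n with
  | zero =>
    intro J hJ D _ hsupp hD
    rw [Finset.card_eq_zero] at hJ
    subst hJ
    refine ⟨default, ?_⟩
    intro s _ _
    obtain ⟨d, hd, _⟩ := hD (∅, ∅) ⟨fun _ => true, by simp, by simp⟩
    refine ⟨d, hd, ?_, ?_⟩
    · intro q hq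
      exact absurd ((hsupp d hd).1 q hq) (Finset.notMem_empty _)
    · intro q hq
      exact absurd ((hsupp d hd).2 q hq) (Finset.notMem_empty _)
  | succ n ih =>
    intro J hJ D hDc hsupp hD
    have hne : D.Nonempty := by
      obtain ⟨d, hd, _⟩ := hD (∅, ∅) ⟨fun _ => true, by simp, by simp⟩
      exact ⟨d, hd⟩
    obtain ⟨η, hη⟩ := hen D hDc hne
    obtain ⟨δ, hδ⟩ := exists_cbel D hDc
    have hZ : ∀ x : ℕ × Cnd K, ∃ ζ : W, x.1 ∈ J → (∃ f, Mt x.2 f) →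
        ∀ s : ℕ → W, Set.InjOn s ((J.erase x.1 : Finset ℕ) : Set ℕ) →
          (∀ j ∈ J.erase x.1, ζ ≤ s j) →
          ∃ c ∈ Tr D x.1 x.2, Mt c (fun q => z (s q.1) q.2) := by
      intro x
      by_cases hx : x.1 ∈ J ∧ ∃ f, Mt x.2 f
      · obtain ⟨hx1, hx2⟩ := hx
        obtain ⟨ζ, hζ⟩ := ih (J.erase x.1) (by rw [Finset.card_erase_of_mem hx1, hJ]; rfl)
          (Tr D x.1 x.2) ((hDc.image (restr x.1)).mono (by
            rintro d ⟨c, hc, _, rfl⟩
            exact Set.mem_image_of_mem _ hc)) (by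
            rintro d ⟨c, hc, _, rfl⟩
            refine ⟨fun q hq => ?_, fun q hq => ?_⟩
            · obtain ⟨h1, h2⟩ := mem_restr1.mp hq
              exact Finset.mem_erase.mpr ⟨h2, (hsupp c hc).1 q h1⟩
            · obtain ⟨h1, h2⟩ := mem_restr2.mp hq
              exact Finset.mem_erase.mpr ⟨h2, (hsupp c hc).2 q h1⟩) (pre_Tr hD _ _ hx2)
        exact ⟨ζ, fun _ _ => hζ⟩
      · exact ⟨default, fun h1 h2 => absurd ⟨h1, h2⟩ hx⟩
    choose Z hZ using hZ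
    have hrk := Rk.prod (Rk.triv (H := ℕ)) (Rk.prod (Rk.finset rk_bel) (Rk.finset rk_bel))
    obtain ⟨ζ1, hζ1⟩ := bdd_fun _ (hrk.cnt δ) Z
    let ζ := max ζ1 (max δ (bdd_ctb' ∅ Set.countable_empty η).choose)
    have hηζ : η < ζ := lt_of_lt_of_le (bdd_ctb' ∅ Set.countable_empty η).choose_spec.1
      ((le_max_right _ _).trans (le_max_right _ _))
    have hδζ : δ ≤ ζ := (le_max_left _ _).trans (le_max_right _ _)
    refine ⟨ζ, ?_⟩
    intro s hs hsζ
    have hJne : J.Nonempty := by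
      rw [← Finset.card_pos, hJ]; omega
    obtain ⟨j0, hj0, hmax⟩ := Finset.exists_max_image J s hJne
    have hlt : ∀ j ∈ J, j ≠ j0 → s j < s j0 := by
      intro j hj hne
      refine lt_of_le_of_ne (hmax j hj) ?_
      intro heq
      exact hne (hs (Finset.mem_coe.mpr hj) (Finset.mem_coe.mpr hj0) heq)
    let A : Finset (ℕ × W) := (J.erase j0).image (fun j => (j, s j))
    have hA : ∀ q ∈ A, q.2 < s j0 := by
      intro q hq
      obtain ⟨j, hj, rfl⟩ := Finset.mem_image.mp hq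
      exact hlt j (Finset.mem_of_mem_erase hj) (Finset.ne_of_mem_erase hj)
    have hA2 : ∀ j β, (j, β) ∈ A → β = s j := by
      intro j β hq
      obtain ⟨j', hj', he⟩ := Finset.mem_image.mp hq
      obtain ⟨rfl, rfl⟩ := Prod.mk.inj he
      rfl
    have hpre : Pre (Sec (en η) A j0 r) := by
      rw [hη]
      rintro c0' ⟨g, hg⟩
      let c0 : Cnd K := (c0'.1.filter (fun κ => bel κ δ), c0'.2.filter (fun κ => bel κ δ))
      have hc0 : ∃ f, Mt c0 f :=
        ⟨g, hg.mono (Finset.filter_subset _ _) (Finset.filter_subset _ _)⟩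
      have hb : Z (j0, c0) < ζ1 := hζ1 (j0, c0) ⟨trivial, fun κ hκ => (Finset.mem_filter.mp hκ).2,
        fun κ hκ => (Finset.mem_filter.mp hκ).2⟩
      obtain ⟨d, ⟨c, hc, ⟨g1, hg1, hg2⟩, rfl⟩, hm⟩ := hZ (j0, c0) hj0 hc0 s
        (hs.mono (by exact_mod_cast Finset.erase_subset _ _))
        (fun j hj => (hb.le.trans (le_max_left _ _)).trans
          (hsζ j (Finset.mem_of_mem_erase hj)))
      refine ⟨row j0 c, ⟨c, hc, ?_, ?_, rfl⟩,
        fun κ => if bel κ δ then g1 κ else g κ, ⟨?_, ?_⟩, ⟨?_, ?_⟩⟩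
      · intro q hq hne
        have hqJ := (hsupp c hc).1 q hq
        refine ⟨s q.1, Finset.mem_image.mpr ⟨q.1, Finset.mem_erase.mpr ⟨hne, hqJ⟩, rfl⟩, ?_⟩
        rw [← hz _ _ (rk_bel.mono _ _ _ (hδζ.trans (hsζ _ hqJ)) ((hδ c hc).1 q hq).2)]
        exact hm.1 q (mem_restr1.mpr ⟨hq, hne⟩)
      · intro q hq hne
        have hqJ := (hsupp c hc).2 q hq
        refine ⟨s q.1, Finset.mem_image.mpr ⟨q.1, Finset.mem_erase.mpr ⟨hne, hqJ⟩, rfl⟩, ?_⟩
        rw [← hz _ _ (rk_bel.mono _ _ _ (hδζ.trans (hsζ _ hqJ)) ((hδ c hc).2 q hq).2)]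
        exact hm.2 q (mem_restr2.mpr ⟨hq, hne⟩)
      · intro κ hκ
        by_cases h : bel κ δ
        · simp only [h, if_true]
          exact hg2.1 κ (Finset.mem_filter.mpr ⟨hκ, h⟩)
        · simp only [h, if_false]
          exact hg.1 κ hκ
      · intro κ hκ
        by_cases h : bel κ δ
        · simp only [h, if_true]
          exact hg2.2 κ (Finset.mem_filter.mpr ⟨hκ, h⟩)
        · simp only [h, if_false]
          exact hg.2 κ hκ
      · intro κ hκ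
        have h : bel κ δ := ((hδ c hc).1 _ (mem_row1.mp hκ)).2
        simp only [h, if_true]
        exact hg1.1 κ hκ
      · intro κ hκ
        have h : bel κ δ := ((hδ c hc).2 _ (mem_row2.mp hκ)).2
        simp only [h, if_true]
        exact hg1.2 κ hκ
    obtain ⟨d, ⟨c, hc, h1, h2, rfl⟩, hm⟩ :=
      (hr (s j0)).2.1 η (hηζ.trans_le (hsζ j0 hj0)) j0 A hA hpre
    rw [hη] at hc
    refine ⟨c, hc, ?_, ?_⟩
    · rintro ⟨j, κ⟩ hq
      have hqJ := (hsupp c hc).1 _ hq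
      have hzr := hz (s j) κ
        (rk_bel.mono _ _ _ (hδζ.trans (hsζ _ hqJ)) ((hδ c hc).1 _ hq).2)
      show z (s j) κ = true
      rw [hzr]
      by_cases hj : j = j0
      · subst hj
        exact hm.1 κ (mem_row1.mpr hq)
      · obtain ⟨β, hβ, hβ'⟩ := h1 _ hq hj
        rw [hA2 _ _ hβ] at hβ'
        exact hβ'
    · rintro ⟨j, κ⟩ hq
      have hqJ := (hsupp c hc).2 _ hq
      have hzr := hz (s j) κ
        (rk_bel.mono _ _ _ (hδζ.trans (hsζ _ hqJ)) ((hδ c hc).2 _ hq).2)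
      show z (s j) κ = false
      rw [hzr]
      by_cases hj : j = j0
      · subst hj
        exact hm.2 κ (mem_row2.mpr hq)
      · obtain ⟨β, hβ, hβ'⟩ := h2 _ hq hj
        rw [hA2 _ _ hβ] at hβ'
        exact hβ'

theorem z2_aux (en : W → (ℕ → ℕ → W)) (v : W → W → Bool) (hv : ∀ ξ, ReqCol en ξ v (v ξ))
    (η : W) (n : ℕ) (h1 : ∀ l, Set.InjOn (en η l) (Set.Iio n))
    (h2 : ∀ l l', l ≠ l' → ∀ j < n, ∀ j' < n, en η l j ≠ en η l' j') (τ : ℕ → W → Bool)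
    (b : Finset W) : (∀ ξ ∈ b, η < ξ) →
    {l | ∀ j < n, ∀ ξ ∈ b, v ξ (en η l j) = τ j ξ}.Infinite := by
  classical
  induction b using Finset.induction_on_max with
  | empty =>
    intro _
    simp only [Finset.notMem_empty, false_implies, implies_true, Set.ofPred_true]
    exact Set.infinite_univ
  | insert ξ b hlt ih =>
    intro hb
    have ih' := ih (fun ξ' h => hb ξ' (Finset.mem_insert_of_mem h))
    let c : Cnd (ℕ × W) := (((Finset.range n) ×ˢ b).filter (fun q => τ q.1 q.2 = true),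
      ((Finset.range n) ×ˢ b).filter (fun q => τ q.1 q.2 = false))
    have hc : ∀ l, Mt c (fun q => v q.2 (en η l q.1)) ↔
        ∀ j < n, ∀ ξ ∈ b, v ξ (en η l j) = τ j ξ := by
      intro l
      constructor
      · intro h j hj ξ' hξ'
        by_cases ht : τ j ξ' = true
        · rw [ht]
          exact h.1 (j, ξ') (Finset.mem_filter.mpr ⟨Finset.mem_product.mpr
            ⟨Finset.mem_range.mpr hj, hξ'⟩, ht⟩)
        · rw [Bool.not_eq_true] at ht
          rw [ht]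
          exact h.2 (j, ξ') (Finset.mem_filter.mpr ⟨Finset.mem_product.mpr
            ⟨Finset.mem_range.mpr hj, hξ'⟩, ht⟩)
      · intro h
        refine ⟨fun q hq => ?_, fun q hq => ?_⟩
        · obtain ⟨hq1, hq2⟩ := Finset.mem_filter.mp hq
          obtain ⟨hq3, hq4⟩ := Finset.mem_product.mp hq1
          rw [← hq2]
          exact h q.1 (Finset.mem_range.mp hq3) q.2 hq4
        · obtain ⟨hq1, hq2⟩ := Finset.mem_filter.mp hq
          obtain ⟨hq3, hq4⟩ := Finset.mem_product.mp hq1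
          rw [← hq2]
          exact h q.1 (Finset.mem_range.mp hq3) q.2 hq4
    have hinf : {l | Mt c (fun q => v q.2 (en η l q.1))}.Infinite := by
      simp only [hc]; exact ih'
    rw [Set.infinite_iff_exists_gt]
    intro k
    obtain ⟨l, hl1, hl2, hl3⟩ := hv ξ η (hb ξ (Finset.mem_insert_self _ _)) n c
      (fun q hq => hlt _ (Finset.mem_product.mp (Finset.mem_filter.mp hq).1).2)
      (fun q hq => hlt _ (Finset.mem_product.mp (Finset.mem_filter.mp hq).1).2)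
      ((Finset.range n).filter (fun j => τ j ξ = true)) (k + 1) h1 h2 hinf
    refine ⟨l, ?_, by omega⟩
    intro j hj ξ' hξ'
    rcases Finset.mem_insert.mp hξ' with rfl | hξ'
    · have := hl3 j hj
      simp only [Finset.mem_filter, Finset.mem_range, hj, true_and] at this
      exact Bool.eq_iff_iff.mpr this
    · exact (hc l).mp hl1 j hj ξ' hξ'

/-- The data of the generic matrix. -/
structure Dat where
  /-- the rows -/
  z : W → K → Bool
  /-- the left separated rows -/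
  T : W → Prop
  z1 : ∀ (J : Finset ℕ) (D : Set (Cnd (ℕ × K))), D.Countable →
      (∀ c ∈ D, (∀ q ∈ c.1, q.1 ∈ J) ∧ (∀ q ∈ c.2, q.1 ∈ J)) → Pre D →
      ∃ ζ, ∀ s : ℕ → W, Set.InjOn s (J : Set ℕ) → (∀ j ∈ J, ζ ≤ s j) →
        ∃ c ∈ D, Mt c (fun q => z (s q.1) q.2)
  z2 : ∀ (n : ℕ) (s : ℕ → ℕ → W), (∀ l, Set.InjOn (s l) (Set.Iio n)) →
      (∀ l l', l ≠ l' → ∀ j < n, ∀ j' < n, s l j ≠ s l' j') → (∀ l, ∀ j < n, ¬ T (s l j)) →
      ∃ ζ, ∀ (b : Finset K) (f : ℕ → K → Bool), (∀ κ ∈ b, ¬ bel κ ζ) →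
        ∃ l, ∀ j < n, ∀ κ ∈ b, z (s l j) κ = f j κ
  z3 : ∀ c : Cnd K, (∃ f, Mt c f) → ∀ α, ∃ β, α ≤ β ∧ ¬ T β ∧ Mt c (z β)
  z4 : ∀ α, T α → z α (Sum.inr α) = true
  z4' : ∀ α ξ, T α → α < ξ → z α (Sum.inr ξ) = false
  z5 : ∀ α β, α ≠ β → ∃ n : ℕ, z α (Sum.inl n) ≠ z β (Sum.inl n)
  z6 : ∀ α, ∃ β, α ≤ β ∧ T β

theorem exists_dat (ch : (ℵ_ 1 : Cardinal.{0}) = 𝔠) : Nonempty Dat := by
  classical
  obtain ⟨en, hen⟩ := exists_en ch
  obtain ⟨en2, hen2⟩ := exists_en2 ch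
  obtain ⟨ty, hty⟩ := exists_ty ch
  obtain ⟨r, hr⟩ := exists_rows en ty
  obtain ⟨v, hv⟩ := exists_cols en2
  let T : W → Prop := fun α => (ty α).2 = true
  let z : W → K → Bool := fun α κ => Sum.elim (fun n => r α (Sum.inl n))
    (fun ξ => if ξ < α then r α (Sum.inr ξ) else if T α then decide (ξ = α) else v ξ α) κ
  have hz : ∀ α κ, bel κ α → z α κ = r α κ := by
    rintro α (n | ξ) h
    · rfl
    · have h' : ξ < α := h
      simp [z, h']
  refine ⟨⟨z, T, ?_, ?_, ?_, ?_, ?_, ?_, ?_⟩⟩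
  · intro J D h1 h2 h3
    exact z1_aux en ty r hr hen z hz J.card J rfl D h1 h2 h3
  · intro n s h1 h2 h3
    obtain ⟨η, rfl⟩ := hen2 s
    obtain ⟨ζ, hζ1, hζ2⟩ := bdd_ctb' (⋃ l, (en2 η l) '' Set.Iio n)
      (Set.countable_iUnion fun l => (Set.to_countable _).image _) η
    refine ⟨ζ, ?_⟩
    intro b f hb
    let b' : Finset W := b.image (Sum.elim (fun _ => ζ) id)
    have hb' : ∀ ξ ∈ b', η < ξ := by
      intro ξ hξ
      obtain ⟨κ, hκ, rfl⟩ := Finset.mem_image.mp hξ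
      rcases κ with m | ξ'
      · exact hζ1
      · exact hζ1.trans_le (not_lt.mp (hb _ hκ))
    obtain ⟨l, hl⟩ := (z2_aux en2 v hv η n h1 h2 (fun j ξ => f j (Sum.inr ξ)) b' hb').nonempty
    refine ⟨l, ?_⟩
    intro j hj κ hκ
    rcases κ with m | ξ
    · exact absurd trivial (hb _ hκ)
    · have h4 : ζ ≤ ξ := not_lt.mp (hb _ hκ)
      have h5 : en2 η l j < ζ := hζ2 _ (Set.mem_iUnion.mpr ⟨l, j, hj, rfl⟩)
      have h6 : ¬ ξ < en2 η l j := not_lt.mpr (h5.le.trans h4)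
      have h7 : ¬ T (en2 η l j) := h3 l j hj
      have h8 := hl j hj ξ (Finset.mem_image.mpr ⟨Sum.inr ξ, hκ, rfl⟩)
      simp only [z, Sum.elim_inr, h6, if_false, h7]
      exact h8
  · intro c hc α
    obtain ⟨δ, hδ⟩ := (Rk.prod (Rk.finset rk_bel) (Rk.finset rk_bel)).ex c
    obtain ⟨β, hβ, hβ'⟩ := hty (c, false) (max α δ)
    refine ⟨β, (le_max_left _ _).trans hβ, by simp [T, hβ'], ?_⟩
    have h1 := (hr β).1 (by rw [hβ']; exact hc)
    rw [hβ'] at h1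
    have hδβ : δ ≤ β := (le_max_right _ _).trans hβ
    refine ⟨fun κ hκ => ?_, fun κ hκ => ?_⟩
    · rw [hz _ _ (rk_bel.mono _ _ _ hδβ (hδ.1 κ hκ))]
      exact h1.1 κ hκ
    · rw [hz _ _ (rk_bel.mono _ _ _ hδβ (hδ.2 κ hκ))]
      exact h1.2 κ hκ
  · intro α hα
    simp [z, hα]
  · intro α ξ hα hlt
    have h1 : ¬ ξ < α := not_lt.mpr hlt.le
    have h2 : ξ ≠ α := hlt.ne'
    simp [z, h1, hα, h2]
  · intro α β hne
    rcases lt_or_gt_of_ne hne with h | h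
    · obtain ⟨n, hn⟩ := (hr β).2.2 α h
      exact ⟨n, fun h' => hn h'.symm⟩
    · obtain ⟨n, hn⟩ := (hr α).2.2 β h
      exact ⟨n, hn⟩
  · intro α
    obtain ⟨β, hβ, hβ'⟩ := hty ((∅, ∅), true) α
    exact ⟨β, hβ, by simp [T, hβ']⟩

end Pool.Agent.Lib.MP_44eb6b_gt
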