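import Pool.Agent.Lib.MP_44eb6b_gt.Core

/-!
The core theorem: closed sets of the countable power have countable dense subsets.
-/

set_option autoImplicit false

namespace Pool.Agent.Lib.MP_44eb6b_gt

open Set Cardinal

/-- A stage of the construction of a point of `F`. -/
structure Stg (M : Dat) (F : Set (ℕ → W × ℕ)) (B : Set (Cd × Cnd (ℕ × K))) (ζ : W) where
  /-- the condition -/
  b : Cd × Cnd (ℕ × K)
  /-- the new points -/
  s : ℕ → W
  mem : b ∈ B
  sol : Solid M F b.1 b.2
  inj : Set.InjOn s (Set.Iio b.1.length)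
  ge : ∀ j < b.1.length, ζ ≤ s j ∧ ¬ M.T (s j)
  mt : Mt b.2 (zz M s)

/-- From a solid condition one gets a point of `F` whose new points are of type `E`. -/
theorem star (M : Dat) (F : Set (ℕ → W × ℕ))
    (hcl : ∀ x, (∀ (k : ℕ) (a : Finset K), ∃ y ∈ F, Near M k a x y) → x ∈ F)
    {t : Cd} {c : Cnd (ℕ × K)} (hs : Solid M F t c) (α : W) :
    ∃ x ∈ F, ∃ w, Rep α x t w ∧ (∀ j < t.length, ¬ M.T (w j)) ∧ Mt c (zz M w) := by
  classical
  have hC : ∀ b : Cd × Cnd (ℕ × K), ∃ x : Set (Cd × Cnd (ℕ × K)) × W, x.1.Countable ∧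
      (Solid M F b.1 b.2 →
      (∀ b' ∈ x.1, (∃ u, b'.1 = b.1 ++ [u]) ∧ Solid M F b'.1 b'.2) ∧
      (∀ s : ℕ → W, Set.InjOn s (Set.Iio b.1.length) → (∀ j < b.1.length, x.2 ≤ s j) →
        Mt b.2 (zz M s) → ∃ b' ∈ x.1, Mt (cut b.1.length b'.2) (zz M s))) := by
    intro b
    by_cases h : Solid M F b.1 b.2
    · obtain ⟨C, ζ, h1, h2, h3⟩ := exists_ext M F h
      exact ⟨(C, ζ), h1, fun _ => ⟨h2, h3⟩⟩
    · exact ⟨(∅, default), Set.countable_empty, fun h' => absurd h' h⟩
  choose X hX1 hX2 using hC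
  obtain ⟨B, hB1, hB2, hB3⟩ := countable_closure (fun b => (X b).1) hX1 (t, c)
  obtain ⟨ζ0, hζ0⟩ := bdd_fun B hB1 (fun b => (X b).2)
  let ζ : W := max ζ0 α
  have hζ : ∀ b ∈ B, (X b).2 ≤ ζ := fun b hb => (hζ0 b hb).le.trans (le_max_left _ _)
  -- one step
  have hstep : ∀ g : Stg M F B ζ, ∃ g' : Stg M F B ζ, (∃ u, g'.b.1 = g.b.1 ++ [u]) ∧
      (∀ j < g.b.1.length, g'.s j = g.s j) := by
    intro g
    obtain ⟨h1, h2⟩ := hX2 g.b g.sol
    obtain ⟨b', hb', hmt⟩ := h2 g.s g.inj (fun j hj => (hζ _ g.mem).trans (g.ge j hj).1) g.mt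
    obtain ⟨⟨u, hu⟩, hsol⟩ := h1 b' hb'
    obtain ⟨γ, hγ1, hγ2⟩ := bdd_ctb' (g.s '' Set.Iio g.b.1.length)
      ((Set.to_countable _).image _) ζ
    obtain ⟨f, hf⟩ := hsol.2.2.1
    obtain ⟨β, hβ1, hβ2, hβ3⟩ := M.z3 (row g.b.1.length b'.2) ⟨fun κ => f (g.b.1.length, κ),
      fun κ hκ => hf.1 _ (mem_row1.mp hκ), fun κ hκ => hf.2 _ (mem_row2.mp hκ)⟩ γ
    have hne : ∀ j < g.b.1.length, g.s j ≠ β :=
      fun j hj => ((hγ2 _ ⟨j, hj, rfl⟩).trans_le hβ1).ne
    have hlen : b'.1.length = g.b.1.length + 1 := by rw [hu]; simp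
    refine ⟨⟨b', Function.update g.s g.b.1.length β, hB3 _ g.mem hb', hsol, ?_, ?_, ?_⟩,
      ⟨u, hu⟩, fun j hj => Function.update_of_ne (by omega) _ _⟩
    · intro i hi j hj hij
      rw [Set.mem_Iio, hlen] at hi hj
      by_cases hi' : i = g.b.1.length
      · by_cases hj' : j = g.b.1.length
        · rw [hi', hj']
        · rw [hi', Function.update_self, Function.update_of_ne hj'] at hij
          exact absurd hij.symm (hne j (by omega))
      · by_cases hj' : j = g.b.1.length
        · rw [hj', Function.update_self, Function.update_of_ne hi'] at hij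
          exact absurd hij (hne i (by omega))
        · rw [Function.update_of_ne hi', Function.update_of_ne hj'] at hij
          exact g.inj (show i < g.b.1.length by omega) (show j < g.b.1.length by omega) hij
    · intro j hj
      rw [hlen] at hj
      by_cases hj' : j = g.b.1.length
      · rw [hj', Function.update_self]
        exact ⟨hγ1.le.trans hβ1, hβ2⟩
      · rw [Function.update_of_ne hj']
        exact g.ge j (by omega)
    · refine ⟨?_, ?_⟩
      · rintro ⟨j, κ⟩ hq
        have hj : j < b'.1.length := hsol.2.1.1 _ hq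
        show M.z (Function.update g.s g.b.1.length β j) κ = true
        by_cases hj' : j = g.b.1.length
        · subst hj'
          rw [Function.update_self]
          exact hβ3.1 κ (mem_row1.mpr hq)
        · rw [Function.update_of_ne hj']
          exact hmt.1 (j, κ) (Finset.mem_filter.mpr ⟨hq, show j < g.b.1.length by omega⟩)
      · rintro ⟨j, κ⟩ hq
        have hj : j < b'.1.length := hsol.2.1.2 _ hq
        show M.z (Function.update g.s g.b.1.length β j) κ = false
        by_cases hj' : j = g.b.1.length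
        · subst hj'
          rw [Function.update_self]
          exact hβ3.2 κ (mem_row2.mpr hq)
        · rw [Function.update_of_ne hj']
          exact hmt.2 (j, κ) (Finset.mem_filter.mpr ⟨hq, show j < g.b.1.length by omega⟩)
  choose nx hn1 hn2 using hstep
  obtain ⟨s0, hs01, hs02⟩ := fill M c hs.2.2.1 ζ t.length
  let g0 : Stg M F B ζ := ⟨(t, c), s0, hB2, hs, hs01,
    fun j hj => ⟨(hs02 j hj).1, (hs02 j hj).2.1⟩, by
      refine ⟨?_, ?_⟩
      · rintro ⟨j, κ⟩ hq
        exact (hs02 j (hs.2.1.1 _ hq)).2.2.1 κ (mem_row1.mpr hq)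
      · rintro ⟨j, κ⟩ hq
        exact (hs02 j (hs.2.1.2 _ hq)).2.2.2 κ (mem_row2.mpr hq)⟩
  let G : ℕ → Stg M F B ζ := fun n => Nat.rec g0 (fun _ g => nx g) n
  have hG : ∀ n, G (n + 1) = nx (G n) := fun n => rfl
  have hlen : ∀ n, (G n).b.1.length = t.length + n := by
    intro n
    induction n with
    | zero => rfl
    | succ n ih =>
      obtain ⟨u, hu⟩ := hn1 (G n)
      rw [hG, hu, List.length_append, ih]
      rfl
  have hsta : ∀ l l', l ≤ l' → ∀ j < (G l).b.1.length, (G l').s j = (G l).s j := by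
    intro l l' hll
    induction l', hll using Nat.le_induction with
    | base => intro j _; rfl
    | succ l' hll ih =>
      intro j hj
      have e1 := hlen l
      have e2 := hlen l'
      rw [hG, hn2 (G l') j (by omega), ih j hj]
  have hstb : ∀ (l l' : ℕ), l ≤ l' → ∀ (i : ℕ) (u : (W ⊕ ℕ) × ℕ),
      (G l).b.1[i]? = some u → (G l').b.1[i]? = some u := by
    intro l l' hll
    induction l', hll using Nat.le_induction with
    | base => intro i u h; exact h
    | succ l' hll ih =>
      intro i u h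
      obtain ⟨v, hv⟩ := hn1 (G l')
      have h2 := ih i u h
      have h3 : i < (G l').b.1.length := by
        by_contra hcon
        rw [List.getElem?_eq_none (by omega)] at h2
        simp at h2
      rw [hG, hv, List.getElem?_append_left h3]
      exact h2
  let w : ℕ → W := fun j => (G (j + 1)).s j
  have hw : ∀ l j, j < (G l).b.1.length → w j = (G l).s j := by
    intro l j hj
    rcases le_total l (j + 1) with h | h
    · exact hsta l (j + 1) h j hj
    · exact (hsta (j + 1) l h j (by have := hlen (j + 1); omega)).symm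
  have hu : ∀ i, ∃ u, (G (i + 1)).b.1[i]? = some u := by
    intro i
    have : i < (G (i + 1)).b.1.length := by have := hlen (i + 1); omega
    exact ⟨_, List.getElem?_eq_getElem this⟩
  choose u hu using hu
  let x : ℕ → W × ℕ := fun i => val w (u i)
  have hx : ∀ l i v, (G l).b.1[i]? = some v → x i = val w v := by
    intro l i v hv
    have : u i = v := by
      rcases le_total l (i + 1) with h | h
      · have h1 := hstb l (i + 1) h i v hv
        rw [hu] at h1
        exact Option.some.inj h1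
      · have h1 := hstb (i + 1) l h i (u i) (hu i)
        rw [hv] at h1
        exact (Option.some.inj h1).symm
    show val w (u i) = val w v
    rw [this]
  refine ⟨x, hcl x ?_, w, ⟨?_, ?_, ?_⟩, ?_, ?_⟩
  · intro k a
    let t' : Cd := (G k).b.1
    let c1 : Cnd (ℕ × K) := (G k).b.2
    let P : Finset (ℕ × K) := ((Finset.range t'.length) ×ˢ a).filter (fun q => zz M w q = true)
    let N : Finset (ℕ × K) := ((Finset.range t'.length) ×ˢ a).filter (fun q => zz M w q = false)
    have hb1 : Bd t' c1 := (G k).sol.2.1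
    have hm1 : Mt c1 (zz M w) := mt_congr M hb1 (fun j hj => hw k j hj) (G k).mt
    obtain ⟨y, hy, w', hrep, hm⟩ := (G k).sol.2.2.2 (c1.1 ∪ P, c1.2 ∪ N)
      Finset.subset_union_left Finset.subset_union_left (by
        refine ⟨fun q hq => ?_, fun q hq => ?_⟩
        · rcases Finset.mem_union.mp hq with h | h
          · exact hb1.1 q h
          · exact Finset.mem_range.mp (Finset.mem_product.mp (Finset.mem_filter.mp h).1).1
        · rcases Finset.mem_union.mp hq with h | h
          · exact hb1.2 q h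
          · exact Finset.mem_range.mp (Finset.mem_product.mp (Finset.mem_filter.mp h).1).1)
      ⟨zz M w, by
        refine ⟨fun q hq => ?_, fun q hq => ?_⟩
        · rcases Finset.mem_union.mp hq with h | h
          · exact hm1.1 q h
          · exact (Finset.mem_filter.mp h).2
        · rcases Finset.mem_union.mp hq with h | h
          · exact hm1.2 q h
          · exact (Finset.mem_filter.mp h).2⟩ default
    refine ⟨y, hy, ?_⟩
    intro i hi
    have hi' : i < t'.length := by
      show i < (G k).b.1.length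
      have := hlen k
      omega
    have hg : t'[i]? = some t'[i] := List.getElem?_eq_getElem hi'
    have hxi := hx k i _ hg
    have hyi := hrep.eq i _ hg
    have hval := (G k).sol.1 t'[i] (List.getElem_mem hi')
    rw [hxi, hyi]
    refine ⟨rfl, ?_⟩
    intro κ hκ
    rcases hu' : t'[i].1 with γ | j
    · simp [val, hu']
    · have hj : j < t'.length := hval j hu'
      simp only [val, hu', Sum.elim_inr]
      have hmem : (j, κ) ∈ (Finset.range t'.length) ×ˢ a :=
        Finset.mem_product.mpr ⟨Finset.mem_range.mpr hj, hκ⟩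
      by_cases hzz : zz M w (j, κ) = true
      · have h1 := hm.1 (j, κ) (Finset.mem_union_right _ (Finset.mem_filter.mpr ⟨hmem, hzz⟩))
        exact h1.trans hzz.symm
      · rw [Bool.not_eq_true] at hzz
        have h1 := hm.2 (j, κ) (Finset.mem_union_right _ (Finset.mem_filter.mpr ⟨hmem, hzz⟩))
        exact h1.trans hzz.symm
  · intro i hi j hj hij
    have hi' : i < (G 0).b.1.length := hi
    have hj' : j < (G 0).b.1.length := hj
    rw [hw 0 i hi', hw 0 j hj'] at hij
    exact (G 0).inj hi' hj' hij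
  · intro j hj
    have hj' : j < (G 0).b.1.length := hj
    rw [hw 0 j hj']
    exact (le_max_right _ _).trans ((G 0).ge j hj').1
  · intro i v hv
    exact hx 0 i v hv
  · intro j hj
    have hj' : j < (G 0).b.1.length := hj
    rw [hw 0 j hj']
    exact ((G 0).ge j hj').2
  · exact mt_congr M hs.2.1 (fun j hj => hw 0 j hj) (G 0).mt

/-- The property used in the closing off. -/
def Cap (M : Dat) (F : Set (ℕ → W × ℕ)) (b : Cd × Cnd (ℕ × K)) (δ : W) : Prop :=
  ∀ (b1 : Finset K) (f : ℕ → K → Bool), (∀ κ ∈ b1, ¬ bel κ δ) →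
    ∃ x ∈ F, ∃ w : ℕ → W, (∀ j < b.1.length, w j < δ) ∧
      (∀ i u, b.1[i]? = some u → x i = val w u) ∧ Mt b.2 (zz M w) ∧
      ∀ j < b.1.length, ∀ κ ∈ b1, M.z (w j) κ = f j κ

theorem Cap.mono {M : Dat} {F : Set (ℕ → W × ℕ)} {b : Cd × Cnd (ℕ × K)} {δ δ' : W}
    (h : Cap M F b δ) (hδ : δ ≤ δ') : Cap M F b δ' := by
  intro b1 f hb1
  obtain ⟨x, hx, w, h1, h2, h3, h4⟩ := h b1 f (fun κ hκ hb => hb1 κ hκ (rk_bel.mono _ _ _ hδ hb))
  exact ⟨x, hx, w, fun j hj => (h1 j hj).trans_le hδ, h2, h3, h4⟩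

theorem exists_cap (M : Dat) (F : Set (ℕ → W × ℕ))
    (hcl : ∀ x, (∀ (k : ℕ) (a : Finset K), ∃ y ∈ F, Near M k a x y) → x ∈ F)
    {t : Cd} {c : Cnd (ℕ × K)} (hv : Val t) (hb : Bd t c) (hB : Big M F t c) :
    ∃ δ, Cap M F (t, c) δ := by
  classical
  obtain ⟨c', h1, h2, hs⟩ := exists_solid M F hv hb hB
  choose X hX1 Y hX2 hX3 hX4 using fun α => star M F hcl hs α
  have hnx : ∀ α : W, ∃ β, α < β ∧ ∀ j < t.length, Y α j < β := by
    intro α
    obtain ⟨β, hβ1, hβ2⟩ := bdd_ctb' (Y α '' Set.Iio t.length) ((Set.to_countable _).image _) α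
    exact ⟨β, hβ1, fun j hj => hβ2 _ ⟨j, hj, rfl⟩⟩
  choose nx hnx1 hnx2 using hnx
  let A : ℕ → W := fun n => Nat.rec default (fun _ a => nx a) n
  have hA : ∀ n, A (n + 1) = nx (A n) := fun n => rfl
  have hmono : Monotone A := by
    apply monotone_nat_of_le_succ
    intro n
    rw [hA]; exact (hnx1 _).le
  have hlt : ∀ l l', l < l' → ∀ j < t.length, ∀ j' < t.length, Y (A l) j < Y (A l') j' := by
    intro l l' hll j hj j' hj'
    calc Y (A l) j < A (l + 1) := hnx2 _ j hj
      _ ≤ A l' := hmono hll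
      _ ≤ Y (A l') j' := (hX2 (A l')).ge j' hj'
  obtain ⟨ζ, hζ⟩ := M.z2 t.length (fun l => Y (A l)) (fun l => (hX2 (A l)).inj) (by
    intro l l' hne j hj j' hj'
    rcases lt_or_gt_of_ne hne with h | h
    · exact (hlt l l' h j hj j' hj').ne
    · exact (hlt l' l h j' hj' j hj).ne') (fun l j hj => hX3 (A l) j hj)
  obtain ⟨δ, hδ1, hδ2⟩ := bdd_ctb' (Set.range A) (Set.countable_range A) ζ
  refine ⟨δ, ?_⟩
  intro b1 f hb1
  obtain ⟨l, hl⟩ := hζ b1 f (fun κ hκ hb => hb1 κ hκ (rk_bel.mono _ _ _ hδ1.le hb))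
  refine ⟨X (A l), hX1 _, Y (A l), ?_, (hX2 (A l)).eq, (hX4 (A l)).mono h1 h2, hl⟩
  intro j hj
  exact (hnx2 (A l) j hj).trans (hδ2 _ ⟨l + 1, rfl⟩)

/-- Every point has representations of all lengths. -/
theorem exists_rep (δ : W) (x : ℕ → W × ℕ) (k : ℕ) :
    ∃ t w, t.length = k ∧ Val t ∧ Rep δ x t w ∧ ∀ u ∈ t, belu u δ := by
  induction k with
  | zero =>
    refine ⟨[], fun _ => default, rfl, by simp [Val], ⟨?_, ?_, ?_⟩, by simp⟩
    · intro i hi; simp at hi
    · intro j hj; simp at hj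
    · intro i u hu; simp at hu
  | succ k ih =>
    obtain ⟨t, w, h1, h2, h3, h4⟩ := ih
    obtain ⟨u, w', h5, h6, _, h7⟩ := rep_step h3 h2
    refine ⟨t ++ [u], w', by simp [h1], h6, h5, ?_⟩
    intro v hv
    rcases List.mem_append.mp hv with h | h
    · exact h4 v h
    · rw [List.mem_singleton] at h
      rw [h]; exact h7

/-- The core theorem. -/
theorem core (M : Dat) (F : Set (ℕ → W × ℕ))
    (hcl : ∀ x, (∀ (k : ℕ) (a : Finset K), ∃ y ∈ F, Near M k a x y) → x ∈ F) :
    ∃ D ⊆ F, D.Countable ∧ ∀ x ∈ F, ∀ (k : ℕ) (a : Finset K), ∃ y ∈ D, Near M k a x y := by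
  classical
  have hH : ∀ b : Cd × Cnd (ℕ × K), ∃ δ : W, Val b.1 → Bd b.1 b.2 →
      (¬ Big M F b.1 b.2 ∧ ∀ x ∈ F, ∀ w, Rep δ x b.1 w → ¬ Mt b.2 (zz M w)) ∨ Cap M F b δ := by
    intro b
    by_cases h : Val b.1 ∧ Bd b.1 b.2
    · by_cases hB : Big M F b.1 b.2
      · obtain ⟨δ, hδ⟩ := exists_cap M F hcl h.1 h.2 hB
        exact ⟨δ, fun _ _ => Or.inr hδ⟩
      · have hB' := hB
        unfold Big at hB'
        push Not at hB'
        obtain ⟨δ, hδ⟩ := hB'
        exact ⟨δ, fun _ _ => Or.inl ⟨hB, hδ⟩⟩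
    · exact ⟨default, fun h1 h2 => absurd ⟨h1, h2⟩ h⟩
  choose h hh using hH
  obtain ⟨δ, _, hδ⟩ := close_off (Rk.prod (Rk.list rk_belu) rk_cbel) h default
  have hX : ∀ q : List (W × ℕ), ∃ y : ℕ → W × ℕ,
      (∃ x ∈ F, ∀ i v, q[i]? = some v → x i = v) → y ∈ F ∧ ∀ i v, q[i]? = some v → y i = v := by
    intro q
    by_cases hq : ∃ x ∈ F, ∀ i v, q[i]? = some v → x i = v
    · obtain ⟨y, hy⟩ := hq
      exact ⟨y, fun _ => hy⟩
    · exact ⟨fun _ => default, fun h' => absurd h' hq⟩
  choose X hX using hX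
  refine ⟨{y | ∃ q : List (W × ℕ), (∀ v ∈ q, v.1 < δ ∧ True) ∧
    (∃ x ∈ F, ∀ i v, q[i]? = some v → x i = v) ∧ X q = y}, ?_, ?_, ?_⟩
  · rintro y ⟨q, _, hq, rfl⟩
    exact (hX q hq).1
  · have h1 := ((Rk.list (Rk.prod rk_lt (Rk.triv (H := ℕ)))).cnt δ).image X
    refine h1.mono ?_
    rintro y ⟨q, hq, _, rfl⟩
    exact ⟨q, hq, rfl⟩
  · intro x hx k a
    obtain ⟨t, w, h1, h2, h3, h4⟩ := exists_rep δ x k
    let R : Finset (ℕ × K) := (Finset.range t.length) ×ˢ (a.filter (fun κ => bel κ δ))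
    let c : Cnd (ℕ × K) := (R.filter (fun q => zz M w q = true), R.filter (fun q => zz M w q = false))
    have hR : ∀ q ∈ R, q.1 < t.length ∧ q.2 ∈ a ∧ bel q.2 δ := by
      intro q hq
      obtain ⟨a1, a2⟩ := Finset.mem_product.mp hq
      exact ⟨Finset.mem_range.mp a1, (Finset.mem_filter.mp a2).1, (Finset.mem_filter.mp a2).2⟩
    have hbd : Bd t c := ⟨fun q hq => (hR q (Finset.mem_filter.mp hq).1).1,
      fun q hq => (hR q (Finset.mem_filter.mp hq).1).1⟩
    have hmt : Mt c (zz M w) := ⟨fun q hq => (Finset.mem_filter.mp hq).2,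
      fun q hq => (Finset.mem_filter.mp hq).2⟩
    have hbel : cbel c δ := ⟨fun q hq => ⟨trivial, (hR q (Finset.mem_filter.mp hq).1).2.2⟩,
      fun q hq => ⟨trivial, (hR q (Finset.mem_filter.mp hq).1).2.2⟩⟩
    have hle : h (t, c) ≤ δ := hδ (t, c) ⟨h4, hbel⟩
    rcases hh (t, c) h2 hbd with ⟨_, hno⟩ | hcap
    · exact absurd hmt (hno x hx w (h3.mono hle))
    · obtain ⟨y, hy, w', hw1, hw2, hw3, hw4⟩ := (hcap.mono hle)
        (a.filter (fun κ => ¬ bel κ δ)) (fun j κ => M.z (w j) κ)
        (fun κ hκ => (Finset.mem_filter.mp hκ).2)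
      let q : List (W × ℕ) := (List.range k).map y
      have hq : ∀ i v, q[i]? = some v → y i = v := by
        intro i v hv
        have hi : i < k := by
          by_contra hcon
          rw [List.getElem?_eq_none (by simp [q]; omega)] at hv
          simp at hv
        rw [List.getElem?_map, List.getElem?_range hi] at hv
        simpa using hv
      have hq2 : ∀ i < k, q[i]? = some (y i) := by
        intro i hi
        rw [List.getElem?_map, List.getElem?_range hi]
        rfl
      have hyv : ∀ i < k, ∃ u, u ∈ t ∧ t[i]? = some u := by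
        intro i hi
        have : i < t.length := by omega
        exact ⟨_, List.getElem_mem this, List.getElem?_eq_getElem this⟩
      obtain ⟨hX1, hX2⟩ := hX q ⟨y, hy, hq⟩
      refine ⟨X q, ⟨q, ?_, ⟨y, hy, hq⟩, rfl⟩, ?_⟩
      · intro v hv
        obtain ⟨i, hi, rfl⟩ := List.mem_map.mp hv
        rw [List.mem_range] at hi
        obtain ⟨u, hu1, hu2⟩ := hyv i hi
        refine ⟨?_, trivial⟩
        rw [hw2 i u hu2]
        rcases hu' : u.1 with γ | j
        · simp only [val, hu', Sum.elim_inl, id]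
          exact h4 u hu1 γ hu'
        · simp only [val, hu', Sum.elim_inr]
          exact hw1 j (h2 u hu1 j hu')
      · intro i hi
        obtain ⟨u, hu1, hu2⟩ := hyv i hi
        rw [hX2 i _ (hq2 i hi), hw2 i u hu2, h3.eq i u hu2]
        refine ⟨rfl, ?_⟩
        intro κ hκ
        rcases hu' : u.1 with γ | j
        · simp [val, hu']
        · have hj : j < t.length := h2 u hu1 j hu'
          simp only [val, hu', Sum.elim_inr]
          by_cases hb : bel κ δ
          · have hmem : (j, κ) ∈ R := Finset.mem_product.mpr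
              ⟨Finset.mem_range.mpr hj, Finset.mem_filter.mpr ⟨hκ, hb⟩⟩
            by_cases hzz : zz M w (j, κ) = true
            · have h5 := hw3.1 (j, κ) (Finset.mem_filter.mpr ⟨hmem, hzz⟩)
              exact h5.trans hzz.symm
            · rw [Bool.not_eq_true] at hzz
              have h5 := hw3.2 (j, κ) (Finset.mem_filter.mpr ⟨hmem, hzz⟩)
              exact h5.trans hzz.symm
          · exact hw4 j hj κ (Finset.mem_filter.mpr ⟨hκ, hb⟩)

end Pool.Agent.Lib.MP_44eb6b_gt
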