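import Pool.Agent.Lib.MP_44eb6b_gt.Func

/-!
The set of functionals is closed and not separable.
-/

set_option autoImplicit false

namespace Pool.Agent.Lib.MP_44eb6b_gt

open Set Cardinal TopologicalSpace Filter Topology

open Classical in
/-- A test function. -/
noncomputable def t1 (M : Dat) (ρ : ℕ → Bool) (N : ℕ) : Cp (XX M) :=
  ⟨fun x => if ∀ n < N, ph M x (Sum.inl (Sum.inl n)) = ρ n then 1 else 0, by
    refine cont_fin M ((Finset.range N).image (fun n => Sum.inl (Sum.inl n)))
      (fun g => if ∀ n < N, g (Sum.inl (Sum.inl n)) = ρ n then 1 else 0) ?_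
    intro g g' h
    have : (∀ n < N, g (Sum.inl (Sum.inl n)) = ρ n) ↔ (∀ n < N, g' (Sum.inl (Sum.inl n)) = ρ n) := by
      refine forall_congr' fun n => imp_congr_right fun hn => ?_
      rw [h _ (Finset.mem_image_of_mem _ (Finset.mem_range.mpr hn))]
    simp only [this]⟩

open Classical in
/-- A test function. -/
noncomputable def t2 (M : Dat) (ρ : ℕ → Bool) (N : ℕ) (κ : K) (e : Bool) : Cp (XX M) :=
  ⟨fun x => if ph M x (Sum.inl (Sum.inr 0)) = true ∧
      (∀ n < N, ph M x (Sum.inl (Sum.inl n)) = ρ n) ∧ ph M x (Sum.inr (Sum.inl κ)) ≠ e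
      then 1 else 0, by
    refine cont_fin M (insert (Sum.inl (Sum.inr 0)) (insert (Sum.inr (Sum.inl κ))
      ((Finset.range N).image (fun n => Sum.inl (Sum.inl n)))))
      (fun g => if g (Sum.inl (Sum.inr 0)) = true ∧
      (∀ n < N, g (Sum.inl (Sum.inl n)) = ρ n) ∧ g (Sum.inr (Sum.inl κ)) ≠ e
      then 1 else 0) ?_
    intro g g' h
    have h1 : (∀ n < N, g (Sum.inl (Sum.inl n)) = ρ n) ↔
        (∀ n < N, g' (Sum.inl (Sum.inl n)) = ρ n) := by
      refine forall_congr' fun n => imp_congr_right fun hn => ?_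
      rw [h _ (Finset.mem_insert_of_mem (Finset.mem_insert_of_mem
        (Finset.mem_image_of_mem _ (Finset.mem_range.mpr hn))))]
    have h2 := h (Sum.inl (Sum.inr 0)) (Finset.mem_insert_self _ _)
    have h3 := h (Sum.inr (Sum.inl κ)) (Finset.mem_insert_of_mem (Finset.mem_insert_self _ _))
    simp only [h1, h2, h3]⟩

open Classical in
/-- A test function. -/
noncomputable def t3 (M : Dat) (l : L) : Cp (XX M) :=
  ⟨fun x => if ph M x l = true then 1 else 0, by
    refine cont_fin M {l} (fun g => if g l = true then 1 else 0) ?_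
    intro g g' h
    have := h l (Finset.mem_singleton_self _)
    simp only [this]⟩

theorem psi_zf (M : Dat) (α : W) : psi (zf M).1 α = 1 := by
  have := psi_const (zf M).1 α 0 (fun m => rfl)
  linarith

theorem closed_CC (M : Dat) : IsClosed (CC M) := by
  classical
  rw [← closure_subset_iff_isClosed]
  intro Φ hΦ
  obtain ⟨u, hu1, hu2⟩ := mem_closure_iff_ultrafilter.mp hΦ
  -- the index function
  have hidx : ∀ Φ' : Cp (Cp (XX M)), ∃ α : W, Φ' ∈ CC M → M.T α ∧ ∀ f, Φ'.1 f = psi f.1 α := by
    intro Φ'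
    by_cases h : Φ' ∈ CC M
    · obtain ⟨α, hα⟩ := h
      exact ⟨α, fun _ => hα⟩
    · exact ⟨default, fun h' => absurd h' h⟩
  choose idx hidx using hidx
  let v : Ultrafilter W := u.map idx
  have hT : ∀ᶠ α in (v : Filter W), M.T α := by
    show {α | M.T α} ∈ u.map idx
    rw [Ultrafilter.mem_map]
    exact Filter.mem_of_superset hu1 (fun Φ' h => (hidx Φ' h).1)
  have hlim : ∀ f : Cp (XX M), Tendsto (fun α => psi f.1 α) (v : Filter W) (𝓝 (Φ.1 f)) := by
    intro f
    have h1 : Tendsto (fun Φ' : Cp (Cp (XX M)) => Φ'.1 f) (u : Filter _) (𝓝 (Φ.1 f)) := by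
      have h2 : Continuous (fun Φ' : Cp (Cp (XX M)) => Φ'.1 f) :=
        (continuous_apply f).comp continuous_subtype_val
      exact (h2.tendsto Φ).mono_left hu2
    have h3 : Tendsto (fun Φ' : Cp (Cp (XX M)) => psi f.1 (idx Φ')) (u : Filter _)
        (𝓝 (Φ.1 f)) := by
      refine h1.congr' ?_
      exact Filter.mem_of_superset hu1 (fun Φ' h => (hidx Φ' h).2 f)
    have h4 : ((v : Filter W)) = Filter.map idx (u : Filter _) := rfl
    rw [h4, Filter.tendsto_map'_iff]
    exact h3
  have hconst : ∀ (f : Cp (XX M)) (c : ℝ), (∀ᶠ α in (v : Filter W), psi f.1 α = c) →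
      Φ.1 f = c := by
    intro f c h
    have h1 : Tendsto (fun α => psi f.1 α) (v : Filter W) (𝓝 c) :=
      tendsto_const_nhds.congr' (h.mono fun α hα => hα.symm)
    exact tendsto_nhds_unique (hlim f) h1
  have hzero : Φ.1 (zf M) = 1 := hconst _ _ (Eventually.of_forall fun α => psi_zf M α)
  obtain ⟨A, hA⟩ := zero_nbhd M Φ
  -- limits of the coordinates
  have hρ : ∀ n : ℕ, ∃ b : Bool, ∀ᶠ α in (v : Filter W), M.z α (Sum.inl n) = b := by
    intro n
    rcases v.em (fun α => M.z α (Sum.inl n) = true) with h | h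
    · exact ⟨true, h⟩
    · exact ⟨false, h.mono fun α hα => by simpa using hα⟩
  choose ρ hρ using hρ
  have hρN : ∀ N : ℕ, ∀ᶠ α in (v : Filter W), ∀ n < N, M.z α (Sum.inl n) = ρ n := by
    intro N
    have := (Filter.eventually_all_finset (Finset.range N)
      (p := fun n α => M.z α (Sum.inl n) = ρ n) (l := (v : Filter W))).mpr (fun n _ => hρ n)
    exact this.mono fun α hα n hn => hα n (Finset.mem_range.mpr hn)
  -- step 1
  have hβ : ∃ β, ∀ n, M.z β (Sum.inl n) = ρ n := by
    by_contra hcon
    push Not at hcon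
    choose e he using hcon
    let N : ℕ := A.sup (fun p : W × ℕ => e p.1 + 1)
    have h1 := hA (t1 M ρ N) (by
      intro p hp
      have hp' : e (show W × ℕ from p).1 < N :=
        Finset.le_sup (f := fun p : W × ℕ => e p.1 + 1) hp
      have : ¬ ∀ n < N, ph M p (Sum.inl (Sum.inl n)) = ρ n := by
        intro h
        exact he _ (h _ hp')
      simp only [t1, this, if_false])
    have h2 : Φ.1 (t1 M ρ N) = 2 := by
      apply hconst
      refine (hρN N).mono fun α hα => ?_
      have := psi_const (t1 M ρ N).1 α 1 (fun m => by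
        have : ∀ n < N, ph M (α, m) (Sum.inl (Sum.inl n)) = ρ n := hα
        simp only [t1]
        exact if_pos this)
      rw [this]; norm_num
    rw [h2, hzero] at h1
    norm_num at h1
  obtain ⟨β, hβ⟩ := hβ
  -- step 2
  have hk : ∀ κ : K, ∀ᶠ α in (v : Filter W), M.z α κ = M.z β κ := by
    intro κ
    rcases v.em (fun α => M.z α κ = M.z β κ) with h | h
    · exact h
    · exfalso
      have hsep : ∀ γ : W, ∃ n, γ ≠ β → M.z γ (Sum.inl n) ≠ ρ n := by
        intro γ
        by_cases hγ : γ = β
        · exact ⟨0, fun h => absurd hγ h⟩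
        · obtain ⟨n, hn⟩ := M.z5 γ β hγ
          refine ⟨n, fun _ => ?_⟩
          rw [← hβ n]; exact hn
      choose e he using hsep
      let N : ℕ := A.sup (fun p : W × ℕ => e p.1 + 1)
      have h1 := hA (t2 M ρ N κ (M.z β κ)) (by
        intro p hp
        have hp' : e (show W × ℕ from p).1 < N :=
          Finset.le_sup (f := fun p : W × ℕ => e p.1 + 1) hp
        have : ¬ (ph M p (Sum.inl (Sum.inr 0)) = true ∧
            (∀ n < N, ph M p (Sum.inl (Sum.inl n)) = ρ n) ∧
            ph M p (Sum.inr (Sum.inl κ)) ≠ M.z β κ) := by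
          rintro ⟨a1, a2, a3⟩
          have a4 : (show W × ℕ from p).1 = β := by
            by_contra hne
            exact he _ hne (a2 _ hp')
          have a5 : (show W × ℕ from p).2 = 1 := by
            have := of_decide_eq_true a1
            exact this
          apply a3
          have a6 : p = ((β, 1) : W × ℕ) := Prod.ext a4 a5
          rw [a6]
          simp [ph]
        simp only [t2, this, if_false])
      have h2 : Φ.1 (t2 M ρ N κ (M.z β κ)) = 2 := by
        apply hconst
        filter_upwards [hρN N, h] with α hα1 hα2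
        apply psi_one
        · have : (ph M (α, 1) (Sum.inl (Sum.inr 0)) = true ∧
              (∀ n < N, ph M (α, 1) (Sum.inl (Sum.inl n)) = ρ n) ∧
              ph M (α, 1) (Sum.inr (Sum.inl κ)) ≠ M.z β κ) := by
            refine ⟨by simp [ph], hα1, ?_⟩
            simpa [ph] using hα2
          simp only [t2]
          exact if_pos this
        · intro m hm
          have : ¬ (ph M (α, m) (Sum.inl (Sum.inr 0)) = true ∧
              (∀ n < N, ph M (α, m) (Sum.inl (Sum.inl n)) = ρ n) ∧
              ph M (α, m) (Sum.inr (Sum.inl κ)) ≠ M.z β κ) := by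
            rintro ⟨a1, _, _⟩
            have : m = 0 + 1 := of_decide_eq_true a1
            omega
          simp only [t2]
          exact if_neg this
      rw [h2, hzero] at h1
      norm_num at h1
  -- step 3
  have hTβ : M.T β := by
    by_contra hβT
    have hpow : ∀ N : ℕ, (2 : ℝ) ^ N ≤ Φ.1 (t3 M (Sum.inr (Sum.inr β))) := by
      intro N
      refine ge_of_tendsto (hlim (t3 M (Sum.inr (Sum.inr β)))) ?_
      filter_upwards [hρN N, hT] with α hα1 hα2
      apply psi_big
      · have : ph M (α, 0) (Sum.inr (Sum.inr β)) = true := by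
          simp [ph]
        simp only [t3]
        exact if_pos this
      · intro i hi
        have : ¬ ph M (α, i + 1) (Sum.inr (Sum.inr β)) = true := by
          intro h
          have h1 : (¬ M.T β → (i + 1 = 0 ∨ ∃ n < i + 1,
              M.z α (Sum.inl n) ≠ M.z β (Sum.inl n))) := by
            have := h
            simp only [ph] at this
            exact of_decide_eq_true this
          rcases h1 hβT with h2 | ⟨n, hn, h2⟩
          · omega
          · apply h2
            rw [hα1 n (by omega), hβ n]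
        simp only [t3]
        exact if_neg this
      · exact sf_pos M _ (t3 M (Sum.inr (Sum.inr β))).2 α hα2
    obtain ⟨N, hN⟩ := pow_unbounded_of_one_lt (Φ.1 (t3 M (Sum.inr (Sum.inr β))))
      (by norm_num : (1 : ℝ) < 2)
    exact absurd (hpow N) (not_le.mpr hN)
  -- step 4
  refine ⟨β, hTβ, ?_⟩
  intro f
  have hpt : ∀ m : ℕ, Tendsto (fun α : W => f.1 ((α, m) : W × ℕ)) (v : Filter W)
      (𝓝 (f.1 ((β, m) : W × ℕ))) := by
    intro m
    rw [Metric.tendsto_nhds]
    intro ε hε
    have hopen : IsOpen {q : XX M | dist (f.1 q) (f.1 ((β, m) : W × ℕ)) < ε} :=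
      isOpen_lt (f.2.dist continuous_const) continuous_const
    obtain ⟨a, ha⟩ := open_pt M _ hopen (β, m) (by
      show dist (f.1 ((β, m) : W × ℕ)) (f.1 ((β, m) : W × ℕ)) < ε
      rw [dist_self]; exact hε)
    have h1 := (Filter.eventually_all_finset a
      (p := fun κ α => M.z α κ = M.z β κ) (l := (v : Filter W))).mpr (fun κ _ => hk κ)
    exact h1.mono fun α hα => ha (α, m) rfl hα
  have hsf : Tendsto (fun α => sf f.1 α) (v : Filter W) (𝓝 (sf f.1 β)) := by
    unfold sf
    refine tendsto_tsum_of_dominated_convergence sum_half ?_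
      (Eventually.of_forall fun α i => term_norm f.1 α i)
    intro i
    unfold term
    have h1 := ((hpt (i + 1)).sub (hpt 0)).abs
    exact tendsto_const_nhds.mul (tendsto_const_nhds.max (tendsto_const_nhds.sub h1))
  have hpsi : Tendsto (fun α => psi f.1 α) (v : Filter W) (𝓝 (psi f.1 β)) := by
    unfold psi
    exact (hsf.inv₀ (sf_pos M f.1 f.2 β hTβ).ne').add (hpt 0)
  exact tendsto_nhds_unique (hlim f) hpsi

theorem not_sep_CC (M : Dat) : ¬ SeparableSpace (CC M) := by
  classical
  rintro ⟨D, hD1, hD2⟩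
  choose idx hidx using fun Φ : CC M => Φ.2
  obtain ⟨δ, hδ⟩ := bdd_fun D hD1 idx
  obtain ⟨γ, hγ1, hγ2⟩ := M.z6 δ
  let l : L := Sum.inr (Sum.inl (Sum.inr γ))
  have hopen : IsOpen {Φ : CC M | 3 / 2 < Φ.1.1 (t3 M l)} := by
    apply isOpen_lt continuous_const
    exact ((continuous_apply (t3 M l)).comp continuous_subtype_val).comp continuous_subtype_val
  have h1 : ∀ α, M.z α (Sum.inr γ) = true → psi (t3 M l).1 α = 2 := by
    intro α hα
    apply psi_one
    · have : ph M (α, 1) l = true := by
        simp [l, ph, hα]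
      simp only [t3]
      exact if_pos this
    · intro m hm
      have : ¬ ph M (α, m) l = true := by
        simp [l, ph, hm]
      simp only [t3]
      exact if_neg this
  have h2 : ∀ α, M.z α (Sum.inr γ) = false → psi (t3 M l).1 α = 1 := by
    intro α hα
    have := psi_const (t3 M l).1 α 0 (fun m => by
      have : ¬ ph M (α, m) l = true := by
        simp [l, ph, hα]
      simp only [t3]
      exact if_neg this)
    linarith
  obtain ⟨Φ, hΦ1, hΦ2⟩ := hD2.inter_open_nonempty _ hopen
    ⟨⟨Psi M γ hγ2, γ, hγ2, fun f => rfl⟩, by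
      show 3 / 2 < psi (t3 M l).1 γ
      rw [h1 γ (M.z4 γ hγ2)]
      norm_num⟩
  have h3 : Φ.1.1 (t3 M l) = psi (t3 M l).1 (idx Φ) := (hidx Φ).2 _
  have h4 : M.z (idx Φ) (Sum.inr γ) = false :=
    M.z4' _ _ (hidx Φ).1 ((hδ Φ hΦ2).trans_le hγ1)
  have h5 : 3 / 2 < Φ.1.1 (t3 M l) := hΦ1
  rw [h3, h2 _ h4] at h5
  norm_num at h5

theorem main (ch : (ℵ_ 1 : Cardinal.{0}) = 𝔠) :
    ∃ (X : Type) (_ : TopologicalSpace X), T35Space X ∧
      (∀ F : Set (ℕ → X), IsClosed F → SeparableSpace F) ∧
      ¬ (∀ F : Set {g : {f : X → ℝ // Continuous f} → ℝ // Continuous g},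
        IsClosed F → SeparableSpace F) := by
  obtain ⟨M⟩ := exists_dat ch
  refine ⟨XX M, inferInstance, inferInstance, sep_pow M, ?_⟩
  intro h
  exact not_sep_CC M (h _ (closed_CC M))

end Pool.Agent.Lib.MP_44eb6b_gt
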