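import Pool.Agent.Lib.MP_44eb6b_gt.Space

/-!
The closed nonseparable set of functionals.
-/

set_option autoImplicit false

namespace Pool.Agent.Lib.MP_44eb6b_gt

open Set Cardinal TopologicalSpace Filter Topology

/-- The terms of the series. -/
noncomputable def term (f : W × ℕ → ℝ) (α : W) (i : ℕ) : ℝ :=
  (1 / 2 : ℝ) ^ (i + 1) * max 0 (1 - |f (α, i + 1) - f (α, 0)|)

/-- The series. -/
noncomputable def sf (f : W × ℕ → ℝ) (α : W) : ℝ := ∑' i, term f α i

/-- The functional. -/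
noncomputable def psi (f : W × ℕ → ℝ) (α : W) : ℝ := (sf f α)⁻¹ + f (α, 0)

theorem sum_half : Summable (fun i : ℕ => (1 / 2 : ℝ) ^ (i + 1)) := by
  have := summable_geometric_two
  exact (summable_nat_add_iff 1).mpr this

theorem tsum_half : ∑' i : ℕ, (1 / 2 : ℝ) ^ (i + 1) = 1 := by
  have h : ∀ i : ℕ, (1 / 2 : ℝ) ^ (i + 1) = (1 / 2) * (1 / 2) ^ i := fun i => by ring
  simp only [h]
  rw [tsum_mul_left, tsum_geometric_two]
  norm_num

theorem tsum_half_add (N : ℕ) : ∑' i : ℕ, (1 / 2 : ℝ) ^ (i + N + 1) = (1 / 2) ^ N := by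
  have h : ∀ i : ℕ, (1 / 2 : ℝ) ^ (i + N + 1) = (1 / 2) ^ N * (1 / 2) ^ (i + 1) :=
    fun i => by ring
  simp only [h]
  rw [tsum_mul_left, tsum_half]
  ring

theorem term_nonneg (f : W × ℕ → ℝ) (α : W) (i : ℕ) : 0 ≤ term f α i :=
  mul_nonneg (by positivity) (le_max_left _ _)

theorem term_le (f : W × ℕ → ℝ) (α : W) (i : ℕ) : term f α i ≤ (1 / 2 : ℝ) ^ (i + 1) := by
  have h1 : max 0 (1 - |f (α, i + 1) - f (α, 0)|) ≤ 1 := by
    apply max_le zero_le_one
    have := abs_nonneg (f (α, i + 1) - f (α, 0))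
    linarith
  calc term f α i ≤ (1 / 2 : ℝ) ^ (i + 1) * 1 := mul_le_mul_of_nonneg_left h1 (by positivity)
    _ = _ := mul_one _

theorem term_norm (f : W × ℕ → ℝ) (α : W) (i : ℕ) : ‖term f α i‖ ≤ (1 / 2 : ℝ) ^ (i + 1) := by
  rw [Real.norm_eq_abs, abs_of_nonneg (term_nonneg f α i)]
  exact term_le f α i

theorem term_sum (f : W × ℕ → ℝ) (α : W) : Summable (term f α) :=
  Summable.of_nonneg_of_le (term_nonneg f α) (term_le f α) sum_half

/-- The value for constant functions. -/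
theorem psi_const (f : W × ℕ → ℝ) (α : W) (c : ℝ) (h : ∀ m, f (α, m) = c) :
    psi f α = 1 + c := by
  have h1 : ∀ i, term f α i = (1 / 2 : ℝ) ^ (i + 1) := by
    intro i
    simp [term, h]
  have h2 : sf f α = 1 := by
    unfold sf
    simp only [h1]
    exact tsum_half
  unfold psi
  rw [h2, h]
  norm_num

/-- The value for functions concentrated on level one. -/
theorem psi_one (f : W × ℕ → ℝ) (α : W) (h1 : f (α, 1) = 1) (h2 : ∀ m, m ≠ 1 → f (α, m) = 0) :
    psi f α = 2 := by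
  have h3 : sf f α = 1 / 2 := by
    unfold sf
    rw [(term_sum f α).tsum_eq_zero_add]
    have h4 : term f α 0 = 0 := by
      simp [term, h1, h2 0 (by norm_num)]
    have h5 : ∀ i, term f α (i + 1) = (1 / 2 : ℝ) ^ (i + 1 + 1) := by
      intro i
      simp [term, h2 0 (by norm_num), h2 (i + 1 + 1) (by omega)]
    rw [h4]
    simp only [h5]
    rw [zero_add, tsum_half_add 1]
    norm_num
  unfold psi
  rw [h3, h2 0 (by norm_num)]
  norm_num

/-- A lower bound. -/
theorem psi_big (f : W × ℕ → ℝ) (α : W) (N : ℕ) (h0 : f (α, 0) = 1)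
    (h1 : ∀ i < N, f (α, i + 1) = 0) (hpos : 0 < sf f α) : (2 : ℝ) ^ N ≤ psi f α := by
  have h2 : sf f α ≤ (1 / 2) ^ N := by
    unfold sf
    rw [← (term_sum f α).sum_add_tsum_nat_add N]
    have h3 : ∑ i ∈ Finset.range N, term f α i = 0 := by
      apply Finset.sum_eq_zero
      intro i hi
      rw [Finset.mem_range] at hi
      simp [term, h0, h1 i hi]
    rw [h3, zero_add, ← tsum_half_add N]
    refine Summable.tsum_le_tsum (fun i => term_le f α (i + N)) ?_ ?_
    · exact (summable_nat_add_iff N).mpr (term_sum f α)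
    · exact (summable_nat_add_iff N).mpr sum_half
  have h3 : (2 : ℝ) ^ N ≤ (sf f α)⁻¹ := by
    have h4 : ((1 / 2 : ℝ) ^ N)⁻¹ ≤ (sf f α)⁻¹ := inv_anti₀ hpos h2
    have h5 : ((1 / 2 : ℝ) ^ N)⁻¹ = 2 ^ N := by
      rw [one_div, inv_pow, inv_inv]
    rwa [h5] at h4
  unfold psi
  rw [h0]
  linarith

theorem conv_ph (M : Dat) (α : W) (hα : M.T α) (l : L) :
    ∃ N, ∀ i, N ≤ i → ph M (α, i + 1) l = ph M (α, 0) l := by
  rcases l with (n | n) | (κ | β)
  · exact ⟨0, fun i _ => rfl⟩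
  · refine ⟨n + 1, ?_⟩
    intro i hi
    have h1 : ¬ i + 1 = n + 1 := by omega
    have h2 : ¬ (0 : ℕ) = n + 1 := by omega
    simp only [ph, h1, h2]
  · refine ⟨1, ?_⟩
    intro i hi
    have h1 : ¬ i + 1 = 1 := by omega
    simp [ph]
    intro h
    omega
  · by_cases hβ : M.T β
    · exact ⟨0, fun i _ => by simp [ph, hβ]⟩
    · have hne : α ≠ β := by
        rintro rfl
        exact hβ hα
      obtain ⟨n, hn⟩ := M.z5 α β hne
      refine ⟨n, ?_⟩
      intro i hi
      have h1 : ∃ n < i + 1, M.z α (Sum.inl n) ≠ M.z β (Sum.inl n) := ⟨n, by omega, hn⟩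
      have h2 : (¬ M.T β → (i + 1 = 0 ∨ ∃ n < i + 1, M.z α (Sum.inl n) ≠ M.z β (Sum.inl n))) :=
        fun _ => Or.inr h1
      have h3 : (¬ M.T β → ((0 : ℕ) = 0 ∨ ∃ n < 0, M.z α (Sum.inl n) ≠ M.z β (Sum.inl n))) :=
        fun _ => Or.inl rfl
      simp only [ph]
      congr 1
      exact propext ⟨fun _ => h3, fun _ => h2⟩

theorem sf_pos (M : Dat) (f : XX M → ℝ) (hf : Continuous f) (α : W) (hα : M.T α) :
    0 < sf f α := by
  have hopen : IsOpen {q : XX M | |f q - f (α, 0)| < 1} := by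
    apply isOpen_lt _ continuous_const
    exact (hf.sub continuous_const).abs
  obtain ⟨A, hA⟩ := open_ph M _ hopen (α, 0) (by
    show |f (α, 0) - f (α, 0)| < 1
    simp)
  choose N hN using fun l => conv_ph M α hα l
  have h1 := hA (α, A.sup N + 1) (fun l hl => hN l _ (Finset.le_sup hl))
  have h1' : |f (α, A.sup N + 1) - f (α, 0)| < 1 := h1
  refine (term_sum f α).tsum_pos (term_nonneg f α) (A.sup N) ?_
  unfold term
  apply mul_pos (by positivity)
  apply lt_max_of_lt_right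
  linarith

/-- The space of continuous functions with the topology of pointwise convergence. -/
abbrev Cp (X : Type) [TopologicalSpace X] : Type := {f : X → ℝ // Continuous f}

theorem cont_sf (M : Dat) (α : W) : Continuous (fun f : Cp (XX M) => sf f.1 α) := by
  unfold sf
  refine continuous_tsum (fun i => ?_) sum_half (fun i f => term_norm f.1 α i)
  unfold term
  have h1 : ∀ p : W × ℕ, Continuous (fun f : Cp (XX M) => f.1 p) := fun p =>
    (continuous_apply (A := fun _ : XX M => ℝ) p).comp continuous_subtype_val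
  have h2 := ((h1 (α, i + 1)).sub (h1 (α, 0))).abs
  exact continuous_const.mul (continuous_const.max (continuous_const.sub h2))

theorem cont_psi (M : Dat) (α : W) (hα : M.T α) :
    Continuous (fun f : Cp (XX M) => psi f.1 α) := by
  unfold psi
  have h1 : Continuous (fun f : Cp (XX M) => f.1 ((α, 0) : W × ℕ)) :=
    (continuous_apply (A := fun _ : XX M => ℝ) ((α, 0) : W × ℕ)).comp continuous_subtype_val
  exact ((cont_sf M α).inv₀ (fun f => (sf_pos M f.1 f.2 α hα).ne')).add h1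

/-- The functional as an element of the iterated function space. -/
noncomputable def Psi (M : Dat) (α : W) (hα : M.T α) : Cp (Cp (XX M)) :=
  ⟨fun f => psi f.1 α, cont_psi M α hα⟩

/-- The closed set. -/
def CC (M : Dat) : Set (Cp (Cp (XX M))) :=
  {Φ | ∃ α, M.T α ∧ ∀ f, Φ.1 f = psi f.1 α}

/-- The zero function. -/
noncomputable def zf (M : Dat) : Cp (XX M) := ⟨fun _ => 0, continuous_const⟩

theorem zero_nbhd (M : Dat) (Φ : Cp (Cp (XX M))) : ∃ A : Finset (XX M),
    ∀ g : Cp (XX M), (∀ p ∈ A, g.1 p = 0) → |Φ.1 g - Φ.1 (zf M)| < 1 / 2 := by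
  have hopen : IsOpen {g : Cp (XX M) | |Φ.1 g - Φ.1 (zf M)| < 1 / 2} := by
    apply isOpen_lt _ continuous_const
    exact (Φ.2.sub continuous_const).abs
  obtain ⟨t, ht, ht2⟩ := isOpen_induced_iff.mp hopen
  have h0 : (zf M).1 ∈ t := by
    have : zf M ∈ Subtype.val ⁻¹' t := by
      rw [ht2]
      show |Φ.1 (zf M) - Φ.1 (zf M)| < 1 / 2
      simp
    exact this
  obtain ⟨I, u, hu1, hu2⟩ := isOpen_pi_iff.mp ht _ h0
  refine ⟨I, ?_⟩
  intro g hg
  have : g ∈ Subtype.val ⁻¹' t := by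
    apply hu2
    intro p hp
    rw [hg p hp]
    exact (hu1 p hp).2
  rw [ht2] at this
  exact this

end Pool.Agent.Lib.MP_44eb6b_gt
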