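import Pool.Agent.Lib.MP_44eb6b_gt.Basic

/-!
Construction, under the continuum hypothesis, of generic rows and generic columns.
-/

set_option autoImplicit false

namespace Pool.Agent.Lib.MP_44eb6b_gt

open Set Cardinal

theorem rk_lt : Rk (fun (x : W) δ => x < δ) where
  mono := fun x δ δ' h h1 => lt_of_lt_of_le h1 h
  cnt := fun δ => Iio_ctb δ
  cont := by
    intro d hd δ hδ ξ h
    by_contra hcon
    push Not at hcon
    have : δ ≤ ξ := hδ.2 (by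
      rintro _ ⟨i, rfl⟩
      exact hcon i)
    exact absurd h (not_lt.mpr this)
  ex := by
    intro ξ
    obtain ⟨a, ha, _⟩ := bdd_ctb' ∅ Set.countable_empty ξ
    exact ⟨a, ha⟩

/-! ### Enumerations -/

theorem exists_surj (ch : (ℵ_ 1 : Cardinal.{0}) = 𝔠) (A : Type) [Nonempty A] (hA : #A ≤ 𝔠) :
    ∃ e : W → A, Function.Surjective e := by
  have h1 : #A ≤ #W := by rw [mk_W, ch]; exact hA
  obtain ⟨j⟩ := Cardinal.le_def _ _ |>.mp h1
  exact ⟨Function.invFun j, Function.invFun_surjective j.injective⟩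

theorem mk_W_le (ch : (ℵ_ 1 : Cardinal.{0}) = 𝔠) : #W ≤ 𝔠 := by
  rw [mk_W, ch]

theorem mk_K_le (ch : (ℵ_ 1 : Cardinal.{0}) = 𝔠) : #K ≤ 𝔠 := by
  have : #K = #ℕ + #W := by simp [K]
  rw [this]
  refine Cardinal.add_le_of_le Cardinal.aleph0_le_continuum ?_ (mk_W_le ch)
  rw [Cardinal.mk_nat]; exact Cardinal.aleph0_le_continuum

theorem mk_finset_le (A : Type) (hA : #A ≤ 𝔠) : #(Finset A) ≤ 𝔠 := by
  rcases finite_or_infinite A with h | h
  · exact (Cardinal.lt_aleph0_of_finite _).le.trans Cardinal.aleph0_le_continuum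
  · rw [Cardinal.mk_finset_of_infinite]; exact hA

theorem mk_prod_le (A B : Type) (hA : #A ≤ 𝔠) (hB : #B ≤ 𝔠) : #(A × B) ≤ 𝔠 := by
  have : #(A × B) = #A * #B := by simp
  rw [this]
  calc #A * #B ≤ 𝔠 * 𝔠 := mul_le_mul' hA hB
    _ = 𝔠 := Cardinal.continuum_mul_self

theorem mk_seq_le (A : Type) (hA : #A ≤ 𝔠) : #(ℕ → A) ≤ 𝔠 := by
  have : #(ℕ → A) = #A ^ ℵ₀ := by simp
  rw [this]
  calc #A ^ ℵ₀ ≤ 𝔠 ^ ℵ₀ := Cardinal.power_le_power_right hA
    _ = 𝔠 := Cardinal.continuum_power_aleph0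

theorem mk_nat_le : #ℕ ≤ 𝔠 := by
  rw [Cardinal.mk_nat]; exact Cardinal.aleph0_le_continuum

theorem mk_cnd_le (A : Type) (hA : #A ≤ 𝔠) : #(Cnd A) ≤ 𝔠 :=
  mk_prod_le _ _ (mk_finset_le A hA) (mk_finset_le A hA)

theorem exists_en (ch : (ℵ_ 1 : Cardinal.{0}) = 𝔠) :
    ∃ en : W → Set (Cnd (ℕ × K)), ∀ D : Set (Cnd (ℕ × K)), D.Countable → D.Nonempty →
      ∃ η, en η = D := by
  obtain ⟨e, he⟩ := exists_surj ch (ℕ → Cnd (ℕ × K))
    (mk_seq_le _ (mk_cnd_le _ (mk_prod_le _ _ mk_nat_le (mk_K_le ch))))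
  refine ⟨fun η => Set.range (e η), ?_⟩
  intro D hD hne
  obtain ⟨f, hf⟩ := hD.exists_eq_range hne
  obtain ⟨η, hη⟩ := he f
  exact ⟨η, by simp only [hη]; exact hf.symm⟩

theorem exists_en2 (ch : (ℵ_ 1 : Cardinal.{0}) = 𝔠) :
    ∃ en : W → (ℕ → ℕ → W), Function.Surjective en :=
  exists_surj ch _ (mk_seq_le _ (mk_seq_le _ (mk_W_le ch)))

/-- Types of rows: every type occurs cofinally often. -/
theorem exists_ty (ch : (ℵ_ 1 : Cardinal.{0}) = 𝔠) :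
    ∃ ty : W → Cnd K × Bool, ∀ (t : Cnd K × Bool) (α : W), ∃ β, α ≤ β ∧ ty β = t := by
  obtain ⟨e, he⟩ := exists_surj ch (W × (Cnd K × Bool))
    (mk_prod_le _ _ (mk_W_le ch) (mk_prod_le _ _ (mk_cnd_le _ (mk_K_le ch))
      ((Cardinal.lt_aleph0_of_finite _).le.trans Cardinal.aleph0_le_continuum)))
  refine ⟨fun β => (e β).2, ?_⟩
  intro t α
  by_contra hcon
  push Not at hcon
  apply unctb
  have h1 : (Set.univ : Set W) ⊆ (fun β => (e β).1) '' Set.Iio α := by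
    intro γ _
    obtain ⟨β, hβ⟩ := he (γ, t)
    refine ⟨β, ?_, by simp [hβ]⟩
    by_contra hlt
    exact hcon β (not_lt.mp hlt) (by simp [hβ])
  exact ((Iio_ctb α).image _).mono h1

/-! ### Rows -/

/-- The `j`-th row of a condition. -/
noncomputable def row (j : ℕ) (c : Cnd (ℕ × K)) : Cnd K := by
  classical
  exact ((c.1.filter (fun q => q.1 = j)).image Prod.snd,
    (c.2.filter (fun q => q.1 = j)).image Prod.snd)

theorem mem_row1 {j : ℕ} {c : Cnd (ℕ × K)} {κ : K} : κ ∈ (row j c).1 ↔ (j, κ) ∈ c.1 := by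
  simp [row]

theorem mem_row2 {j : ℕ} {c : Cnd (ℕ × K)} {κ : K} : κ ∈ (row j c).2 ↔ (j, κ) ∈ c.2 := by
  simp [row]

/-- The section of a family at the coordinate `j`, the other coordinates being given by rows. -/
def Sec (D : Set (Cnd (ℕ × K))) (A : Finset (ℕ × W)) (j : ℕ) (p : W → K → Bool) :
    Set (Cnd K) :=
  {d | ∃ c ∈ D, (∀ q ∈ c.1, q.1 ≠ j → ∃ β, (q.1, β) ∈ A ∧ p β q.2 = true) ∧
    (∀ q ∈ c.2, q.1 ≠ j → ∃ β, (q.1, β) ∈ A ∧ p β q.2 = false) ∧ d = row j c}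

theorem Sec_congr (D : Set (Cnd (ℕ × K))) (A : Finset (ℕ × W)) (j : ℕ) (p q : W → K → Bool)
    (h : ∀ x ∈ A, p x.2 = q x.2) : Sec D A j p = Sec D A j q := by
  ext d
  constructor
  · rintro ⟨c, hc, h1, h2, h3⟩
    refine ⟨c, hc, ?_, ?_, h3⟩
    · intro x hx hxj
      obtain ⟨β, hβ, hβ'⟩ := h1 x hx hxj
      exact ⟨β, hβ, by rw [← h _ hβ]; exact hβ'⟩
    · intro x hx hxj
      obtain ⟨β, hβ, hβ'⟩ := h2 x hx hxj
      exact ⟨β, hβ, by rw [← h _ hβ]; exact hβ'⟩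
  · rintro ⟨c, hc, h1, h2, h3⟩
    refine ⟨c, hc, ?_, ?_, h3⟩
    · intro x hx hxj
      obtain ⟨β, hβ, hβ'⟩ := h1 x hx hxj
      exact ⟨β, hβ, by rw [h _ hβ]; exact hβ'⟩
    · intro x hx hxj
      obtain ⟨β, hβ, hβ'⟩ := h2 x hx hxj
      exact ⟨β, hβ, by rw [h _ hβ]; exact hβ'⟩

/-- The requirement for the row `α`. -/
def ReqRow (en : W → Set (Cnd (ℕ × K))) (ty : W → Cnd K × Bool) (α : W) (p : W → K → Bool)
    (f : K → Bool) : Prop :=
  ((∃ g, Mt (ty α).1 g) → Mt (ty α).1 f) ∧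
  (∀ η < α, ∀ (j : ℕ) (A : Finset (ℕ × W)), (∀ q ∈ A, q.2 < α) → Pre (Sec (en η) A j p) →
    ∃ d ∈ Sec (en η) A j p, Mt d f) ∧
  (∀ β < α, ∃ n, f (Sum.inl n) ≠ p β (Sum.inl n))

/-- The family forcing a function to differ from `g`. -/
def Dist (g : K → Bool) : Set (Cnd K) :=
  {d | ∃ n : ℕ, d = if g (Sum.inl n) = true then (∅, {Sum.inl n}) else ({Sum.inl n}, ∅)}

theorem pre_Dist (g : K → Bool) : Pre (Dist g) := by
  classical
  rintro c ⟨f, hf⟩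
  obtain ⟨n, hn⟩ := Infinite.exists_notMem_finset
    ((c.1 ∪ c.2).image (Sum.elim id (fun _ => 0)))
  have hn1 : Sum.inl n ∉ c.1 := fun h => hn (Finset.mem_image.mpr
    ⟨Sum.inl n, Finset.mem_union_left _ h, rfl⟩)
  have hn2 : Sum.inl n ∉ c.2 := fun h => hn (Finset.mem_image.mpr
    ⟨Sum.inl n, Finset.mem_union_right _ h, rfl⟩)
  refine ⟨_, ⟨n, rfl⟩, Function.update f (Sum.inl n) (!g (Sum.inl n)), ⟨?_, ?_⟩, ?_⟩
  · intro x hx
    rw [Function.update_of_ne (by rintro rfl; exact hn1 hx)]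
    exact hf.1 x hx
  · intro x hx
    rw [Function.update_of_ne (by rintro rfl; exact hn2 hx)]
    exact hf.2 x hx
  · by_cases h : g (Sum.inl n) = true
    · rw [if_pos h]
      exact ⟨by simp, by simp [h]⟩
    · rw [if_neg h]
      exact ⟨by simp [h], by simp⟩

theorem exists_row (en : W → Set (Cnd (ℕ × K))) (ty : W → Cnd K × Bool) (α : W)
    (p : W → K → Bool) : ∃ f, ReqRow en ty α p f := by
  classical
  let C1 : Set (Set (Cnd K)) :=
    (fun x : W × ℕ × Finset (ℕ × W) => Sec (en x.1) x.2.2 x.2.1 p) ''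
      {x | x.1 < α ∧ True ∧ (∀ q ∈ x.2.2, True ∧ q.2 < α) ∧ Pre (Sec (en x.1) x.2.2 x.2.1 p)}
  let C2 : Set (Set (Cnd K)) := (fun β => Dist (p β)) '' Set.Iio α
  have hC1 : C1.Countable := by
    apply Set.Countable.image
    have := (Rk.prod rk_lt (Rk.prod (Rk.triv (H := ℕ))
      (Rk.finset (Rk.prod (Rk.triv (H := ℕ)) rk_lt)))).cnt α
    refine this.mono ?_
    rintro ⟨x1, x2, x3⟩ ⟨h1, h2, h3, _⟩
    exact ⟨h1, h2, h3⟩
  have hC2 : C2.Countable := (Iio_ctb α).image _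
  let c0 : Cnd K := if ∃ g, Mt (ty α).1 g then (ty α).1 else (∅, ∅)
  have hc0 : ∃ f, Mt c0 f := by
    by_cases h : ∃ g, Mt (ty α).1 g
    · simp only [c0, if_pos h]; exact h
    · simp only [c0, if_neg h]
      exact ⟨fun _ => true, by simp, by simp⟩
  obtain ⟨f, hf1, hf2⟩ := generic (C1 ∪ C2) (hC1.union hC2) (by
    rintro D (⟨x, ⟨_, _, _, hx⟩, rfl⟩ | ⟨β, _, rfl⟩)
    · exact hx
    · exact pre_Dist _) c0 hc0
  refine ⟨f, ?_, ?_, ?_⟩
  · intro h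
    simpa only [c0, if_pos h] using hf1
  · intro η hη j A hA hpre
    exact hf2 _ (Or.inl ⟨(η, j, A), ⟨hη, trivial, fun q hq => ⟨trivial, hA q hq⟩, hpre⟩, rfl⟩)
  · intro β hβ
    obtain ⟨d, ⟨n, rfl⟩, hd⟩ := hf2 _ (Or.inr ⟨β, hβ, rfl⟩)
    refine ⟨n, ?_⟩
    by_cases h : p β (Sum.inl n) = true
    · rw [if_pos h] at hd
      have := hd.2 (Sum.inl n) (by simp)
      rw [this, h]; simp
    · rw [if_neg h] at hd
      have := hd.1 (Sum.inl n) (by simp)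
      rw [this]
      exact fun h' => h h'.symm

theorem exists_rows (en : W → Set (Cnd (ℕ × K))) (ty : W → Cnd K × Bool) :
    ∃ r : W → K → Bool, ∀ α, ReqRow en ty α r (r α) := by
  apply exists_rec
  · intro α p q f hpq h
    refine ⟨h.1, ?_, ?_⟩
    · intro η hη j A hA hpre
      have := Sec_congr (en η) A j p q (fun x hx => hpq _ (hA x hx))
      rw [← this] at hpre ⊢
      exact h.2.1 η hη j A hA hpre
    · intro β hβ
      rw [← hpq β hβ]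
      exact h.2.2 β hβ
  · intro α p
    exact exists_row en ty α p

/-! ### Columns -/

/-- The requirement for the column `ξ`. -/
def ReqCol (en : W → (ℕ → ℕ → W)) (ξ : W) (p : W → W → Bool) (f : W → Bool) : Prop :=
  ∀ η < ξ, ∀ (n : ℕ) (c : Cnd (ℕ × W)), (∀ q ∈ c.1, q.2 < ξ) → (∀ q ∈ c.2, q.2 < ξ) →
    ∀ (ε : Finset ℕ) (k : ℕ), (∀ l, Set.InjOn (en η l) (Set.Iio n)) →
    (∀ l l', l ≠ l' → ∀ j < n, ∀ j' < n, en η l j ≠ en η l' j') →
    {l | Mt c (fun q => p q.2 (en η l q.1))}.Infinite →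
    ∃ l, Mt c (fun q => p q.2 (en η l q.1)) ∧ k ≤ l ∧ ∀ j < n, (f (en η l j) = true ↔ j ∈ ε)

/-- The family used for the column requirement. -/
noncomputable def ColFam (s : ℕ → ℕ → W) (n : ℕ) (L : Set ℕ) (ε : Finset ℕ) (k : ℕ) :
    Set (Cnd W) := by
  classical
  exact {d | ∃ l ∈ L, k ≤ l ∧ d = (((Finset.range n).filter (fun j => j ∈ ε)).image (s l),
    ((Finset.range n).filter (fun j => j ∉ ε)).image (s l))}

theorem pre_ColFam (s : ℕ → ℕ → W) (n : ℕ) (L : Set ℕ) (ε : Finset ℕ) (k : ℕ)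
    (h1 : ∀ l, Set.InjOn (s l) (Set.Iio n))
    (h2 : ∀ l l', l ≠ l' → ∀ j < n, ∀ j' < n, s l j ≠ s l' j') (hL : L.Infinite) :
    Pre (ColFam s n L ε k) := by
  classical
  rintro e ⟨g, hg⟩
  have hfin : {l | ∃ j < n, s l j ∈ e.1 ∪ e.2}.Finite := by
    have : {l | ∃ j < n, s l j ∈ e.1 ∪ e.2} ⊆
        ⋃ x ∈ (e.1 ∪ e.2 : Finset W), {l | ∃ j < n, s l j = x} := by
      rintro l ⟨j, hj, hl⟩
      exact Set.mem_biUnion (by exact_mod_cast hl) ⟨j, hj, rfl⟩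
    refine Set.Finite.subset (Set.Finite.biUnion (Finset.finite_toSet _) ?_) this
    intro x _
    apply Set.Subsingleton.finite
    rintro l ⟨j, hj, hl⟩ l' ⟨j', hj', hl'⟩
    by_contra hne
    exact h2 l l' hne j hj j' hj' (hl.trans hl'.symm)
  have hinf : (L \ ({l | ∃ j < n, s l j ∈ e.1 ∪ e.2} ∪ Set.Iio k)).Infinite :=
    hL.sdiff (hfin.union (Set.finite_Iio k))
  obtain ⟨l, hlL, hl⟩ := hinf.nonempty
  have hl1 : ∀ j < n, s l j ∉ e.1 ∪ e.2 := fun j hj hcon => hl (Or.inl ⟨j, hj, hcon⟩)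
  have hl2 : k ≤ l := by
    by_contra hcon
    exact hl (Or.inr (not_le.mp hcon))
  refine ⟨_, ⟨l, hlL, hl2, rfl⟩,
    fun x => if ∃ j < n, s l j = x then decide (∃ j < n, s l j = x ∧ j ∈ ε) else g x,
    ⟨?_, ?_⟩, ⟨?_, ?_⟩⟩
  · intro x hx
    have : ¬ ∃ j < n, s l j = x := by
      rintro ⟨j, hj, rfl⟩
      exact hl1 j hj (Finset.mem_union_left _ hx)
    simp only [this, if_false]
    exact hg.1 x hx
  · intro x hx
    have : ¬ ∃ j < n, s l j = x := by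
      rintro ⟨j, hj, rfl⟩
      exact hl1 j hj (Finset.mem_union_right _ hx)
    simp only [this, if_false]
    exact hg.2 x hx
  · intro x hx
    obtain ⟨j, hj, rfl⟩ := Finset.mem_image.mp hx
    obtain ⟨hj1, hj2⟩ := Finset.mem_filter.mp hj
    rw [Finset.mem_range] at hj1
    have : ∃ j' < n, s l j' = s l j := ⟨j, hj1, rfl⟩
    simp only [this, if_true]
    exact decide_eq_true ⟨j, hj1, rfl, hj2⟩
  · intro x hx
    obtain ⟨j, hj, rfl⟩ := Finset.mem_image.mp hx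
    obtain ⟨hj1, hj2⟩ := Finset.mem_filter.mp hj
    rw [Finset.mem_range] at hj1
    have : ∃ j' < n, s l j' = s l j := ⟨j, hj1, rfl⟩
    simp only [this, if_true]
    apply decide_eq_false
    rintro ⟨j', hj', he, hε⟩
    have := h1 l (Set.mem_Iio.mpr hj') (Set.mem_Iio.mpr hj1) he
    rw [this] at hε
    exact hj2 hε

theorem exists_col (en : W → (ℕ → ℕ → W)) (ξ : W) (p : W → W → Bool) :
    ∃ f, ReqCol en ξ p f := by
  classical
  let Good : W × ℕ × (Cnd (ℕ × W)) × Finset ℕ × ℕ → Prop := fun x =>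
    (∀ l, Set.InjOn (en x.1 l) (Set.Iio x.2.1)) ∧
    (∀ l l', l ≠ l' → ∀ j < x.2.1, ∀ j' < x.2.1, en x.1 l j ≠ en x.1 l' j') ∧
    {l | Mt x.2.2.1 (fun q => p q.2 (en x.1 l q.1))}.Infinite
  let Fam : W × ℕ × (Cnd (ℕ × W)) × Finset ℕ × ℕ → Set (Cnd W) := fun x =>
    ColFam (en x.1) x.2.1 {l | Mt x.2.2.1 (fun q => p q.2 (en x.1 l q.1))} x.2.2.2.1 x.2.2.2.2
  let C : Set (Set (Cnd W)) := Fam '' {x | (x.1 < ξ ∧ True ∧
    ((∀ q ∈ x.2.2.1.1, True ∧ q.2 < ξ) ∧ (∀ q ∈ x.2.2.1.2, True ∧ q.2 < ξ)) ∧ True ∧ True) ∧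
    Good x}
  have hC : C.Countable := by
    apply Set.Countable.image
    have := (Rk.prod rk_lt (Rk.prod (Rk.triv (H := ℕ)) (Rk.prod
      (Rk.prod (Rk.finset (Rk.prod (Rk.triv (H := ℕ)) rk_lt))
        (Rk.finset (Rk.prod (Rk.triv (H := ℕ)) rk_lt)))
      (Rk.prod (Rk.triv (H := Finset ℕ)) (Rk.triv (H := ℕ)))))).cnt ξ
    refine this.mono ?_
    intro x hx
    exact hx.1
  obtain ⟨f, _, hf2⟩ := generic C hC (by
    rintro D ⟨x, ⟨_, hg1, hg2, hg3⟩, rfl⟩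
    exact pre_ColFam _ _ _ _ _ hg1 hg2 hg3) (∅, ∅) ⟨fun _ => true, by simp, by simp⟩
  refine ⟨f, ?_⟩
  intro η hη n c hc1 hc2 ε k h1 h2 h3
  obtain ⟨d, ⟨l, hl, hk, rfl⟩, hd⟩ := hf2 (Fam (η, n, c, ε, k)) ⟨(η, n, c, ε, k),
    ⟨⟨hη, trivial, ⟨fun q hq => ⟨trivial, hc1 q hq⟩, fun q hq => ⟨trivial, hc2 q hq⟩⟩,
      trivial, trivial⟩, h1, h2, h3⟩, rfl⟩
  refine ⟨l, hl, hk, ?_⟩
  intro j hj
  constructor
  · intro hfj
    by_contra hcon
    have := hd.2 (en η l j) (Finset.mem_image_of_mem _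
      (Finset.mem_filter.mpr ⟨Finset.mem_range.mpr hj, hcon⟩))
    rw [this] at hfj
    exact Bool.noConfusion hfj
  · intro hε
    exact hd.1 (en η l j) (Finset.mem_image_of_mem _
      (Finset.mem_filter.mpr ⟨Finset.mem_range.mpr hj, hε⟩))

theorem exists_cols (en : W → (ℕ → ℕ → W)) :
    ∃ v : W → W → Bool, ∀ ξ, ReqCol en ξ v (v ξ) := by
  apply exists_rec
  · intro ξ p q f hpq h η hη n c hc1 hc2 ε k h1 h2 h3
    have hiff : ∀ l, Mt c (fun x => p x.2 (en η l x.1)) ↔ Mt c (fun x => q x.2 (en η l x.1)) := by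
      intro l
      constructor
      · rintro ⟨a, b⟩
        refine ⟨fun x hx => ?_, fun x hx => ?_⟩
        · have := a x hx
          beta_reduce at this ⊢
          rwa [hpq _ (hc1 x hx)] at this
        · have := b x hx
          beta_reduce at this ⊢
          rwa [hpq _ (hc2 x hx)] at this
      · rintro ⟨a, b⟩
        refine ⟨fun x hx => ?_, fun x hx => ?_⟩
        · have := a x hx
          beta_reduce at this ⊢
          rwa [← hpq _ (hc1 x hx)] at this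
        · have := b x hx
          beta_reduce at this ⊢
          rwa [← hpq _ (hc2 x hx)] at this
    simp only [← hiff] at h3 ⊢
    exact h η hη n c hc1 hc2 ε k h1 h2 h3
  · intro ξ p
    exact exists_col en ξ p

end Pool.Agent.Lib.MP_44eb6b_gt
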