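import Pool.Agent.Lib.MP_44eb6b_gt.Dense

/-!
The space and its countable power.
-/

set_option autoImplicit false

namespace Pool.Agent.Lib.MP_44eb6b_gt

open Set Cardinal TopologicalSpace

/-- Indices of the basic clopen sets. -/
abbrev L : Type := (ℕ ⊕ ℕ) ⊕ (K ⊕ W)

open Classical in
/-- The characteristic functions of the basic clopen sets. -/
noncomputable def ph (M : Dat) (x : W × ℕ) (l : L) : Bool :=
  match l with
  | Sum.inl (Sum.inl n) => M.z x.1 (Sum.inl n)
  | Sum.inl (Sum.inr n) => decide (x.2 = n + 1)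
  | Sum.inr (Sum.inl κ) => decide (x.2 = 1) && M.z x.1 κ
  | Sum.inr (Sum.inr β) => decide (¬ M.T β →
      x.2 = 0 ∨ ∃ n < x.2, M.z x.1 (Sum.inl n) ≠ M.z β (Sum.inl n))

/-- The space. -/
def XX (_M : Dat) : Type := W × ℕ

noncomputable instance instTopXX (M : Dat) : TopologicalSpace (XX M) :=
  TopologicalSpace.induced (ph M) inferInstance

theorem ph_inj (M : Dat) : Function.Injective (ph M) := by
  rintro ⟨α, m⟩ ⟨β, n⟩ h
  have h1 : α = β := by
    by_contra hne
    obtain ⟨k, hk⟩ := M.z5 α β hne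
    exact hk (congrFun h (Sum.inl (Sum.inl k)))
  subst h1
  have h2 : m = n := by
    rcases m with _ | m
    · rcases n with _ | n
      · rfl
      · have := congrFun h (Sum.inl (Sum.inr n))
        simp [ph] at this
    · have := congrFun h (Sum.inl (Sum.inr m))
      simp only [ph, decide_true] at this
      have := of_decide_eq_true this.symm
      exact this.symm
  rw [h2]

theorem ph_emb (M : Dat) : Topology.IsEmbedding (fun x : XX M => ph M x) :=
  ⟨⟨rfl⟩, ph_inj M⟩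

instance instT35XX (M : Dat) : T35Space (XX M) := (ph_emb M).t35Space

theorem ph_dep (M : Dat) (l : L) (m : ℕ) : ∃ a : Finset K, ∀ x y : W × ℕ, x.2 = m → y.2 = m →
    (∀ κ ∈ a, M.z y.1 κ = M.z x.1 κ) → ph M y l = ph M x l := by
  classical
  rcases l with (n | n) | (κ | β)
  · refine ⟨{Sum.inl n}, ?_⟩
    intro x y _ _ h
    exact h _ (Finset.mem_singleton_self _)
  · refine ⟨∅, ?_⟩
    intro x y hx hy _
    simp only [ph, hx, hy]
  · refine ⟨{κ}, ?_⟩
    intro x y hx hy h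
    simp only [ph, hx, hy, h _ (Finset.mem_singleton_self _)]
  · refine ⟨(Finset.range m).image Sum.inl, ?_⟩
    intro x y hx hy h
    simp only [ph, hx, hy]
    congr 1
    apply propext
    refine imp_congr_right fun _ => or_congr_right ?_
    constructor
    · rintro ⟨n, hn, h1⟩
      rw [h _ (Finset.mem_image_of_mem _ (Finset.mem_range.mpr hn))] at h1
      exact ⟨n, hn, h1⟩
    · rintro ⟨n, hn, h1⟩
      rw [← h _ (Finset.mem_image_of_mem _ (Finset.mem_range.mpr hn))] at h1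
      exact ⟨n, hn, h1⟩

theorem open_ph (M : Dat) (V : Set (XX M)) (hV : IsOpen V) (p : XX M) (hp : p ∈ V) :
    ∃ A : Finset L, ∀ q : XX M, (∀ l ∈ A, ph M q l = ph M p l) → q ∈ V := by
  obtain ⟨t, ht, rfl⟩ := isOpen_induced_iff.mp hV
  obtain ⟨I, u, hu1, hu2⟩ := isOpen_pi_iff.mp ht (ph M p) hp
  refine ⟨I, ?_⟩
  intro q hq
  apply hu2
  intro l hl
  rw [hq l hl]
  exact (hu1 l hl).2

theorem open_pt (M : Dat) (V : Set (XX M)) (hV : IsOpen V) (p : W × ℕ) (hp : p ∈ V) :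
    ∃ a : Finset K, ∀ q : W × ℕ, q.2 = p.2 → (∀ κ ∈ a, M.z q.1 κ = M.z p.1 κ) → q ∈ V := by
  classical
  obtain ⟨A, hA⟩ := open_ph M V hV p hp
  choose d hd using fun l => ph_dep M l p.2
  refine ⟨A.biUnion d, ?_⟩
  intro q hq1 hq2
  apply hA
  intro l hl
  exact hd l p q rfl hq1 (fun κ hκ => hq2 κ (Finset.mem_biUnion.mpr ⟨l, hl, hκ⟩))

theorem open_near (M : Dat) (U : Set (ℕ → XX M)) (hU : IsOpen U) (x : ℕ → XX M) (hx : x ∈ U) :
    ∃ (k : ℕ) (a : Finset K), ∀ y : ℕ → XX M, Near M k a x y → y ∈ U := by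
  classical
  obtain ⟨I, u, hu1, hu2⟩ := isOpen_pi_iff.mp hU x hx
  have h : ∀ i : ℕ, ∃ a : Finset K, i ∈ I → ∀ q : W × ℕ, q.2 = (x i).2 →
      (∀ κ ∈ a, M.z q.1 κ = M.z (x i).1 κ) → q ∈ u i := by
    intro i
    by_cases hi : i ∈ I
    · obtain ⟨a, ha⟩ := open_pt M (u i) (hu1 i hi).1 (x i) (hu1 i hi).2
      exact ⟨a, fun _ => ha⟩
    · exact ⟨∅, fun h => absurd h hi⟩
  choose a ha using h
  refine ⟨I.sup id + 1, I.biUnion a, ?_⟩
  intro y hy
  apply hu2
  intro i hi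
  have hi' : i ∈ I := hi
  have hlt : i < I.sup id + 1 := Nat.lt_succ_of_le (Finset.le_sup (f := id) hi')
  obtain ⟨h1, h2⟩ := hy i hlt
  exact ha i hi' (y i) h1 (fun κ hκ => h2 κ (Finset.mem_biUnion.mpr ⟨i, hi', hκ⟩))

theorem mem_closed (M : Dat) (F : Set (ℕ → XX M)) (hF : IsClosed F) (x : ℕ → XX M)
    (hx : ∀ (k : ℕ) (a : Finset K), ∃ y ∈ F, Near M k a x y) : x ∈ F := by
  have : x ∈ closure F := by
    rw [mem_closure_iff]
    intro U hU hxU
    obtain ⟨k, a, h⟩ := open_near M U hU x hxU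
    obtain ⟨y, hy, hn⟩ := hx k a
    exact ⟨y, h y hn, hy⟩
  rwa [hF.closure_eq] at this

theorem sep_pow (M : Dat) (F : Set (ℕ → XX M)) (hF : IsClosed F) : SeparableSpace F := by
  obtain ⟨D, hD1, hD2, hD3⟩ := core M F (fun x hx => mem_closed M F hF x hx)
  refine ⟨⟨{y : F | y.1 ∈ D}, ?_, ?_⟩⟩
  · exact hD2.preimage Subtype.val_injective
  · rw [dense_iff_inter_open]
    rintro U hU ⟨x, hx⟩
    obtain ⟨V, hV, rfl⟩ := isOpen_induced_iff.mp hU
    obtain ⟨k, a, h⟩ := open_near M V hV x.1 hx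
    obtain ⟨y, hy, hn⟩ := hD3 x.1 x.2 k a
    exact ⟨⟨y, hD1 hy⟩, h y hn, hy⟩

/-- Continuity of functions depending on finitely many clopen sets. -/
theorem cont_fin (M : Dat) (A : Finset L) (h : (L → Bool) → ℝ)
    (hd : ∀ g g', (∀ l ∈ A, g l = g' l) → h g = h g') :
    Continuous (fun x : XX M => h (ph M x)) := by
  have h1 : IsLocallyConstant h := by
    rw [IsLocallyConstant.iff_exists_open]
    intro g
    refine ⟨(A : Set L).pi (fun l => {g l}), ?_, ?_, ?_⟩
    · exact isOpen_set_pi A.finite_toSet (fun l _ => isOpen_discrete _)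
    · intro l _; rfl
    · intro g' hg'
      exact hd g' g (fun l hl => hg' l hl)
  exact h1.continuous.comp (ph_emb M).continuous

end Pool.Agent.Lib.MP_44eb6b_gt
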